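import Pool.Agent.H32.KroneckerPrimes

/-!
# Integer dilates: definitions

For a set `E` of positive reals, `dilateUnion E = ⋃_{r ≥ 1} r E`.
-/

namespace Pool.Agent.H32.HS

/-- `F(E) = ⋃_{r ≥ 1} r E`, the union of the positive integer dilates of `E`. -/
def dilateUnion (E : Set ℝ) : Set ℝ := ⋃ r : ℕ, ⋃ _ : 1 ≤ r, (fun x : ℝ => (r : ℝ) * x) '' E

lemma mem_dilateUnion {E : Set ℝ} {y : ℝ} :
    y ∈ dilateUnion E ↔ ∃ r : ℕ, 1 ≤ r ∧ ∃ x ∈ E, (r : ℝ) * x = y := by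
  simp [dilateUnion]

/-- Sanity check: `y ∈ F(E)` exactly when `y / r ∈ E` for some positive integer `r`. -/
lemma mem_dilateUnion_iff_div {E : Set ℝ} {y : ℝ} :
    y ∈ dilateUnion E ↔ ∃ r : ℕ, 1 ≤ r ∧ y / r ∈ E := by
  rw [mem_dilateUnion]
  constructor
  · rintro ⟨r, hr, x, hx, rfl⟩
    refine ⟨r, hr, ?_⟩
    have : (r : ℝ) ≠ 0 := by positivity
    rwa [mul_div_cancel_left₀ _ this]
  · rintro ⟨r, hr, hx⟩
    refine ⟨r, hr, _, hx, ?_⟩
    have : (r : ℝ) ≠ 0 := by positivity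
    field_simp

lemma dilateUnion_mono {E E' : Set ℝ} (h : E ⊆ E') : dilateUnion E ⊆ dilateUnion E' := by
  intro y hy
  rw [mem_dilateUnion] at hy ⊢
  obtain ⟨r, hr, x, hx, h'⟩ := hy
  exact ⟨r, hr, x, h hx, h'⟩

/-- The trivial direction: `F(E)` is closed under multiplication by positive integers. -/
lemma mul_mem_dilateUnion {E : Set ℝ} {x : ℝ} (hx : x ∈ dilateUnion E) {n : ℕ} (hn : 1 ≤ n) :
    (n : ℝ) * x ∈ dilateUnion E := by
  rw [mem_dilateUnion] at hx ⊢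
  obtain ⟨r, hr, y, hy, rfl⟩ := hx
  refine ⟨n * r, Nat.one_le_iff_ne_zero.2 (Nat.mul_ne_zero (by omega) (by omega)), y, hy, ?_⟩
  push_cast
  ring

end Pool.Agent.H32.HS
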