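import Mathlib

/-!
# Integers without prime factors in a set of primes with divergent reciprocal sum
-/

namespace Pool.Agent.H32.HS

open Finset Filter Topology

lemma totient_prod_le (Q : Finset ℕ) (hQ : ∀ p ∈ Q, p.Prime) :
    ((∏ p ∈ Q, p).totient : ℝ) ≤ (∏ p ∈ Q, p : ℕ) * Real.exp (-∑ p ∈ Q, (1 : ℝ) / p) := by
  have h1 := Nat.totient_eq_mul_prod_factors (∏ p ∈ Q, p)
  rw [Nat.primeFactors_prod hQ] at h1
  have h2 : ((∏ p ∈ Q, p).totient : ℝ) = (∏ p ∈ Q, p : ℕ) * ∏ p ∈ Q, (1 - (p : ℝ)⁻¹) := by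
    have h3 := congrArg (fun x : ℚ => (x : ℝ)) h1
    push_cast at h3 ⊢
    exact h3
  rw [h2]
  apply mul_le_mul_of_nonneg_left _ (by positivity)
  rw [← Finset.sum_neg_distrib, Real.exp_sum]
  apply Finset.prod_le_prod
  · intro p hp
    have h3 : (1 : ℝ) ≤ p := by exact_mod_cast (hQ p hp).one_le
    have := inv_le_one_of_one_le₀ h3
    linarith
  · intro p hp
    have := Real.add_one_le_exp (-(1 / (p : ℝ)))
    rw [inv_eq_one_div]
    linarith

/-- The integers without a prime factor in `S` have natural density zero if the sum of the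
reciprocals of the elements of `S` diverges. -/
lemma density_zero (S T : Set ℕ) (hS : ∀ p ∈ S, p.Prime)
    (hdiv : ∀ C : ℝ, ∃ Q : Finset ℕ, (∀ p ∈ Q, p ∈ S) ∧ C ≤ ∑ p ∈ Q, (1 : ℝ) / p)
    (hT : ∀ n ∈ T, 1 ≤ n → ∀ p ∈ S, ¬ p ∣ n) :
    Tendsto (fun N : ℕ => ({n : ℕ | 1 ≤ n ∧ n ≤ N ∧ n ∈ T}.ncard : ℝ) / N) atTop (𝓝 0) := by
  rw [Metric.tendsto_atTop]
  intro e he
  obtain ⟨Q, hQS, hQ⟩ := hdiv (-Real.log (e / 4))
  have hQp : ∀ p ∈ Q, p.Prime := fun p hp => hS p (hQS p hp)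
  set q : ℕ := ∏ p ∈ Q, p with hq
  have hq0 : 0 < q := Finset.prod_pos fun p hp => (hQp p hp).pos
  have hqr : (0 : ℝ) < q := by exact_mod_cast hq0
  have hφ : (q.totient : ℝ) ≤ q * (e / 4) := by
    refine (totient_prod_le Q hQp).trans ?_
    apply mul_le_mul_of_nonneg_left _ (by positivity)
    calc Real.exp (-∑ p ∈ Q, (1 : ℝ) / p) ≤ Real.exp (Real.log (e / 4)) := by
          apply Real.exp_le_exp.2
          linarith
      _ = e / 4 := Real.exp_log (by positivity)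
  obtain ⟨N0, hN0⟩ := exists_nat_ge ((q.totient : ℝ) / (e / 4) + 1)
  refine ⟨N0, fun N hN => ?_⟩
  have hNr : (N0 : ℝ) ≤ N := by exact_mod_cast hN
  have hφe : 0 ≤ (q.totient : ℝ) / (e / 4) := by positivity
  have hN1 : (0 : ℝ) < N := by linarith
  rw [Real.dist_eq, sub_zero, abs_of_nonneg (by positivity), div_lt_iff₀ hN1]
  have h1 : {n : ℕ | 1 ≤ n ∧ n ≤ N ∧ n ∈ T} ⊆
      (((Finset.Ico 1 (1 + N)).filter fun n => q.Coprime n : Finset ℕ) : Set ℕ) := by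
    intro n hn
    obtain ⟨hn1, hnN, hnT⟩ := hn
    rw [Finset.mem_coe, Finset.mem_filter, Finset.mem_Ico]
    refine ⟨⟨hn1, by omega⟩, ?_⟩
    rw [hq]
    refine Nat.Coprime.prod_left fun p hp => ?_
    rw [(hQp p hp).coprime_iff_not_dvd]
    exact hT n hnT hn1 p (hQS p hp)
  have h2 := Set.ncard_le_ncard h1 (Finset.finite_toSet _)
  rw [Set.ncard_coe_finset] at h2
  have h3 := h2.trans (Nat.Ico_filter_coprime_le 1 N hq0.ne')
  have h4 : (({n : ℕ | 1 ≤ n ∧ n ≤ N ∧ n ∈ T}.ncard : ℕ) : ℝ) ≤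
      (q.totient : ℝ) * (((N / q : ℕ) : ℝ) + 1) := by exact_mod_cast h3
  have h5 : ((N / q : ℕ) : ℝ) ≤ (N : ℝ) / q := Nat.cast_div_le
  have h6 : (q.totient : ℝ) * (((N / q : ℕ) : ℝ) + 1) ≤ q.totient * ((N : ℝ) / q + 1) :=
    mul_le_mul_of_nonneg_left (by linarith) (by positivity)
  have h7 : (q.totient : ℝ) * ((N : ℝ) / q) ≤ (q * (e / 4)) * ((N : ℝ) / q) :=
    mul_le_mul_of_nonneg_right hφ (by positivity)
  have h8 : (q * (e / 4)) * ((N : ℝ) / q) = N * (e / 4) := by field_simp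
  have h9 : (q.totient : ℝ) ≤ N * (e / 4) := by
    have : (q.totient : ℝ) / (e / 4) ≤ N := by linarith
    rwa [div_le_iff₀ (by positivity)] at this
  have h10 : 0 < e * N := by positivity
  nlinarith

end Pool.Agent.H32.HS
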