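import Pool.Agent.H32.HS.Defs

/-!
# `F(E)` has density one at infinity

For a measurable set `E ⊆ (0, ∞)` of positive measure and `0 < u ≤ v` the measure of
`{x ∈ [u, v] : n x ∉ F(E)}` tends to zero as `n → ∞`.
-/

namespace Pool.Agent.H32.HS

open MeasureTheory Finset Filter Topology

/-- Lebesgue density: an interval almost filled by `E`. -/
lemma exists_dense_interval (E : Set ℝ) (hE0 : E ⊆ Set.Ioi 0) (hE : MeasurableSet E)
    (hpos : volume E ≠ 0) (η : ℝ) (hη : 0 < η) :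
    ∃ c ρ : ℝ, 0 < ρ ∧ 3 * ρ ≤ c ∧
      volume (Set.Icc (c - ρ) (c + ρ) \ E) ≤ ENNReal.ofReal (η * ρ) := by
  have h1 := Besicovitch.ae_tendsto_measure_inter_div (volume : Measure ℝ) E
  have h2 : ∃ x ∈ E, Tendsto (fun r => volume (E ∩ Metric.closedBall x r) /
      volume (Metric.closedBall x r)) (𝓝[>] 0) (𝓝 1) := by
    rw [ae_restrict_iff' hE] at h1
    by_contra hcon
    push Not at hcon
    apply hpos
    refine measure_mono_null (fun x hx => ?_) (ae_iff.1 h1)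
    intro h
    exact hcon x hx (h hx)
  obtain ⟨c, hcE, hc⟩ := h2
  have hc0 : 0 < c := hE0 hcE
  have hlt : ENNReal.ofReal (1 - η / 2) < 1 := by
    rw [ENNReal.ofReal_lt_one]; linarith
  have hev := hc.eventually (lt_mem_nhds hlt)
  have hev2 : ∀ᶠ r : ℝ in 𝓝[>] 0, r < c / 3 :=
    mem_nhdsWithin_of_mem_nhds (Iio_mem_nhds (by positivity))
  obtain ⟨ρ, hρ1, hρ2, hρ0⟩ := (hev.and (hev2.and self_mem_nhdsWithin)).exists
  have hρ0' : 0 < ρ := hρ0
  refine ⟨c, ρ, hρ0', by linarith, ?_⟩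
  rw [Real.closedBall_eq_Icc] at hρ1
  have hvol : volume (Set.Icc (c - ρ) (c + ρ)) = ENNReal.ofReal (2 * ρ) := by
    rw [Real.volume_Icc]; congr 1; ring
  rw [hvol] at hρ1
  have hne : ENNReal.ofReal (2 * ρ) ≠ 0 := by simpa using hρ0'
  rw [ENNReal.lt_div_iff_mul_lt (Or.inl hne) (Or.inl ENNReal.ofReal_ne_top)] at hρ1
  rw [Set.inter_comm] at hρ1
  have hdiff := measure_sdiff_add_inter (μ := volume) (Set.Icc (c - ρ) (c + ρ)) hE
  rw [hvol] at hdiff
  have hfin : volume (Set.Icc (c - ρ) (c + ρ) ∩ E) ≠ ⊤ :=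
    ne_top_of_le_ne_top (by rw [hvol]; exact ENNReal.ofReal_ne_top)
      (measure_mono Set.inter_subset_left)
  have h3 : volume (Set.Icc (c - ρ) (c + ρ) \ E) =
      ENNReal.ofReal (2 * ρ) - volume (Set.Icc (c - ρ) (c + ρ) ∩ E) := by
    rw [← hdiff]
    exact (ENNReal.add_sub_cancel_right hfin).symm
  rw [h3, tsub_le_iff_right]
  refine le_trans ?_ (add_le_add (le_refl _) hρ1.le)
  by_cases hη1 : 0 ≤ 1 - η / 2
  · rw [← ENNReal.ofReal_mul hη1, ← ENNReal.ofReal_add (by positivity) (by positivity)]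
    apply ENNReal.ofReal_le_ofReal
    nlinarith
  · push Not at hη1
    refine le_trans ?_ le_self_add
    apply ENNReal.ofReal_le_ofReal
    nlinarith

/-- The number of integers `r` with `y / r ∈ [c - ρ, c + ρ]`. -/
lemma card_interval (c ρ y : ℝ) (hρ : 0 < ρ) (hc : 3 * ρ ≤ c) (hy : c ^ 2 / ρ ≤ y) (R : ℕ)
    (hR : y / (c - ρ) ≤ R) :
    y * ρ / c ^ 2 ≤ (((Finset.Icc 1 R).filter fun r : ℕ =>
      y / r ∈ Set.Icc (c - ρ) (c + ρ)).card : ℝ) := by
  have hc0 : 0 < c := by linarith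
  have hcρ : 0 < c - ρ := by linarith
  have hy0 : 0 < y := lt_of_lt_of_le (by positivity) hy
  set u : ℝ := y / (c + ρ) with hu
  set v : ℝ := y / (c - ρ) with hv
  have hu0 : 0 < u := by positivity
  have huv : y * ρ / c ^ 2 + 1 ≤ v - u := by
    have h1 : v - u = y * (2 * ρ) / (c ^ 2 - ρ ^ 2) := by
      rw [hu, hv]
      have : c ^ 2 - ρ ^ 2 ≠ 0 := by
        have : 0 < c ^ 2 - ρ ^ 2 := by nlinarith
        exact this.ne'
      have h2 : c - ρ ≠ 0 := hcρ.ne'
      have h3 : c + ρ ≠ 0 := by positivity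
      field_simp
      ring
    have h2 : y * (2 * ρ) / c ^ 2 ≤ y * (2 * ρ) / (c ^ 2 - ρ ^ 2) := by
      apply div_le_div_of_nonneg_left (by positivity) (by nlinarith) (by nlinarith)
    have h3 : 1 ≤ y * ρ / c ^ 2 := by
      rw [le_div_iff₀ (by positivity)]
      rw [div_le_iff₀ hρ] at hy
      linarith
    have h4 : y * (2 * ρ) / c ^ 2 = y * ρ / c ^ 2 + y * ρ / c ^ 2 := by ring
    rw [h1]
    linarith
  have hsub : Finset.Ioc ⌊u⌋₊ ⌊v⌋₊ ⊆ (Finset.Icc 1 R).filter fun r : ℕ =>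
      y / r ∈ Set.Icc (c - ρ) (c + ρ) := by
    intro r hr
    rw [Finset.mem_Ioc] at hr
    have h1 : u < r := Nat.lt_of_floor_lt hr.1
    have h2 : (r : ℝ) ≤ v := (Nat.le_floor_iff (by positivity)).1 hr.2
    have hr0 : (0 : ℝ) < r := by linarith
    rw [Finset.mem_filter, Finset.mem_Icc]
    refine ⟨⟨by exact_mod_cast hr0, ?_⟩, ?_, ?_⟩
    · have : (r : ℝ) ≤ R := h2.trans hR
      exact_mod_cast this
    · rw [hv, le_div_iff₀ hcρ] at h2
      rw [le_div_iff₀ hr0]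
      linarith
    · rw [hu, div_lt_iff₀ (by positivity)] at h1
      rw [div_le_iff₀ hr0]
      linarith
  have h1 := Finset.card_le_card hsub
  rw [Nat.card_Ioc] at h1
  have h2 : (⌊v⌋₊ : ℝ) - ⌊u⌋₊ ≤ (((Finset.Icc 1 R).filter fun r : ℕ =>
      y / r ∈ Set.Icc (c - ρ) (c + ρ)).card : ℝ) := by
    have h3 : ⌊v⌋₊ ≤ ((Finset.Icc 1 R).filter fun r : ℕ =>
      y / r ∈ Set.Icc (c - ρ) (c + ρ)).card + ⌊u⌋₊ := by omega
    have h4 : (⌊v⌋₊ : ℝ) ≤ (((Finset.Icc 1 R).filter fun r : ℕ =>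
      y / r ∈ Set.Icc (c - ρ) (c + ρ)).card : ℝ) + ⌊u⌋₊ := by exact_mod_cast h3
    linarith
  have h3 : (⌊u⌋₊ : ℝ) ≤ u := Nat.floor_le hu0.le
  have h4 : v < ⌊v⌋₊ + 1 := Nat.lt_floor_add_one v
  linarith

lemma measurableSet_dilateUnion' {E : Set ℝ} (hE : MeasurableSet E) :
    MeasurableSet (dilateUnion E) := by
  have : dilateUnion E = ⋃ r : ℕ, ⋃ _ : 1 ≤ r, (fun y : ℝ => y / r) ⁻¹' E := by
    ext y
    rw [mem_dilateUnion_iff_div]
    simp
  rw [this]
  refine MeasurableSet.iUnion fun r => MeasurableSet.iUnion fun _ => ?_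
  exact hE.preimage (by fun_prop)

/-- The measure of `{x ∈ [u, v] : n x ∉ F(E)}`. -/
noncomputable def gap (E : Set ℝ) (u v : ℝ) (n : ℕ) : ENNReal :=
  volume {x : ℝ | x ∈ Set.Icc u v ∧ (n : ℝ) * x ∉ dilateUnion E}

lemma gap_le (E : Set ℝ) (u v c ρ η : ℝ) (hu : 0 < u) (huv : u ≤ v) (hρ : 0 < ρ)
    (hc : 3 * ρ ≤ c) (hη : 0 ≤ η) (hE : MeasurableSet E)
    (hvol : volume (Set.Icc (c - ρ) (c + ρ) \ E) ≤ ENNReal.ofReal (η * ρ)) (n : ℕ)
    (hn : c ^ 2 / ρ ≤ n * u) (hn1 : 1 ≤ n) :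
    gap E u v n ≤ ENNReal.ofReal (9 * η * v ^ 2 / u) := by
  have hc0 : 0 < c := by linarith
  have hcρ : 0 < c - ρ := by linarith
  have hv : 0 < v := by linarith
  have hnr : (1 : ℝ) ≤ n := by exact_mod_cast hn1
  set I : Set ℝ := Set.Icc (c - ρ) (c + ρ) \ E with hI
  have hIm : MeasurableSet I := measurableSet_Icc.diff hE
  set R : ℕ := ⌈(n : ℝ) * v / (c - ρ)⌉₊ with hR
  have hR1 : (n : ℝ) * v / (c - ρ) ≤ R := Nat.le_ceil _
  have hbig : 1 ≤ (n : ℝ) * v / (c - ρ) := by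
    rw [le_div_iff₀ hcρ]
    have h1 : (n : ℝ) * u ≤ n * v := mul_le_mul_of_nonneg_left huv (by positivity)
    have h2 : c ≤ c ^ 2 / ρ := by
      rw [le_div_iff₀ hρ]
      nlinarith
    linarith
  have hR2 : (R : ℝ) ≤ 2 * ((n : ℝ) * v / (c - ρ)) := by
    have := Nat.ceil_lt_add_one (show 0 ≤ (n : ℝ) * v / (c - ρ) by positivity)
    rw [← hR] at this
    linarith
  set f : ℝ → ENNReal := fun x => ∑ r ∈ Finset.Icc 1 R,
    ((fun x : ℝ => ((n : ℝ) / r) * x) ⁻¹' I).indicator 1 x with hf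
  have hfm : Measurable f := by
    refine Finset.measurable_fun_sum _ fun r _ => ?_
    exact measurable_one.indicator (hIm.preimage (by fun_prop))
  have hint : ∫⁻ x, f x = ∑ r ∈ Finset.Icc 1 R, ENNReal.ofReal ((r : ℝ) / n) * volume I := by
    rw [hf, lintegral_finsetSum]
    · refine Finset.sum_congr rfl fun r hr => ?_
      rw [Finset.mem_Icc] at hr
      have hr0 : (0 : ℝ) < r := by exact_mod_cast hr.1
      rw [lintegral_indicator_one (hIm.preimage (by fun_prop))]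
      rw [Real.volume_preimage_mul_left (by positivity), inv_div, abs_of_pos (by positivity)]
    · intro r _
      exact measurable_one.indicator (hIm.preimage (by fun_prop))
  have hint2 : ∫⁻ x, f x ≤ ENNReal.ofReal ((R : ℝ) ^ 2 / n * (η * ρ)) := by
    rw [hint]
    calc ∑ r ∈ Finset.Icc 1 R, ENNReal.ofReal ((r : ℝ) / n) * volume I
        ≤ ∑ r ∈ Finset.Icc 1 R, ENNReal.ofReal ((R : ℝ) / n) * ENNReal.ofReal (η * ρ) := by
          refine Finset.sum_le_sum fun r hr => ?_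
          rw [Finset.mem_Icc] at hr
          refine mul_le_mul' (ENNReal.ofReal_le_ofReal ?_) hvol
          apply div_le_div_of_nonneg_right _ (by positivity)
          exact_mod_cast hr.2
      _ = ENNReal.ofReal ((R : ℝ) ^ 2 / n * (η * ρ)) := by
          rw [Finset.sum_const, Nat.card_Icc, Nat.add_sub_cancel, nsmul_eq_mul,
            ← ENNReal.ofReal_natCast, ← ENNReal.ofReal_mul (by positivity),
            ← ENNReal.ofReal_mul (by positivity)]
          congr 1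
          ring
  set κ : ℝ := n * u * ρ / c ^ 2 with hκ
  have hκ0 : 0 < κ := by positivity
  have hsub : {x : ℝ | x ∈ Set.Icc u v ∧ (n : ℝ) * x ∉ dilateUnion E} ⊆
      {x | ENNReal.ofReal κ ≤ f x} := by
    intro x hx
    obtain ⟨⟨hxu, hxv⟩, hxF⟩ := hx
    rw [Set.mem_ofPred_eq]
    have hy : c ^ 2 / ρ ≤ n * x := hn.trans (mul_le_mul_of_nonneg_left hxu (by positivity))
    have hyR : (n : ℝ) * x / (c - ρ) ≤ R := by
      refine le_trans ?_ hR1
      apply div_le_div_of_nonneg_right _ hcρ.le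
      exact mul_le_mul_of_nonneg_left hxv (by positivity)
    have hcard := card_interval c ρ (n * x) hρ hc hy R hyR
    have h1 : κ ≤ (n : ℝ) * x * ρ / c ^ 2 := by
      rw [hκ]
      apply div_le_div_of_nonneg_right _ (by positivity)
      apply mul_le_mul_of_nonneg_right _ hρ.le
      exact mul_le_mul_of_nonneg_left hxu (by positivity)
    have h2 : f x = (((Finset.Icc 1 R).filter fun r : ℕ =>
        (n : ℝ) * x / r ∈ Set.Icc (c - ρ) (c + ρ)).card : ENNReal) := by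
      simp only [hf]
      rw [Finset.card_filter]
      push_cast
      refine Finset.sum_congr rfl fun r hr => ?_
      rw [Finset.mem_Icc] at hr
      have hr0 : (0 : ℝ) < r := by exact_mod_cast hr.1
      have h3 : (n : ℝ) / r * x = n * x / r := by ring
      by_cases h4 : (n : ℝ) * x / r ∈ Set.Icc (c - ρ) (c + ρ)
      · rw [if_pos h4, Set.indicator_of_mem]
        · rfl
        · rw [Set.mem_preimage, h3]
          refine ⟨h4, fun h5 => hxF ?_⟩
          exact mem_dilateUnion_iff_div.2 ⟨r, hr.1, h5⟩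
      · rw [if_neg h4, Set.indicator_of_notMem]
        rw [Set.mem_preimage, h3]
        exact fun h5 => h4 h5.1
    rw [h2, ← ENNReal.ofReal_natCast]
    exact ENNReal.ofReal_le_ofReal (h1.trans hcard)
  have hmk := mul_meas_ge_le_lintegral hfm (μ := volume) (ENNReal.ofReal κ)
  have h1 : ENNReal.ofReal κ * gap E u v n ≤ ENNReal.ofReal ((R : ℝ) ^ 2 / n * (η * ρ)) :=
    ((mul_le_mul_right (measure_mono hsub) _).trans hmk).trans hint2
  have h2 : gap E u v n ≤ ENNReal.ofReal ((R : ℝ) ^ 2 / n * (η * ρ)) / ENNReal.ofReal κ := by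
    rw [ENNReal.le_div_iff_mul_le (Or.inl (by simpa using hκ0)) (Or.inl ENNReal.ofReal_ne_top)]
    rw [mul_comm]
    exact h1
  rw [← ENNReal.ofReal_div_of_pos hκ0] at h2
  refine h2.trans (ENNReal.ofReal_le_ofReal ?_)
  rw [div_le_iff₀ hκ0]
  have h3 : (R : ℝ) ^ 2 ≤ (2 * ((n : ℝ) * v / (c - ρ))) ^ 2 :=
    pow_le_pow_left₀ (by positivity) hR2 2
  have h4 : (2 * ((n : ℝ) * v / (c - ρ))) ^ 2 ≤ (3 * ((n : ℝ) * v / c)) ^ 2 := by
    apply pow_le_pow_left₀ (by positivity)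
    have h5 : (n : ℝ) * v / (c - ρ) ≤ (3 / 2) * (n * v / c) := by
      rw [div_le_iff₀ hcρ]
      have h6 : (3 / 2) * ((n : ℝ) * v / c) * (c - ρ) = n * v * ((3 / 2) * ((c - ρ) / c)) := by
        field_simp
      rw [h6]
      have h7 : 1 ≤ (3 / 2) * ((c - ρ) / c) := by
        rw [← mul_div_assoc, le_div_iff₀ hc0]
        linarith
      have h8 : 0 ≤ (n : ℝ) * v := by positivity
      nlinarith
    linarith
  calc (R : ℝ) ^ 2 / n * (η * ρ) ≤ (3 * ((n : ℝ) * v / c)) ^ 2 / n * (η * ρ) := by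
        apply mul_le_mul_of_nonneg_right _ (by positivity)
        apply div_le_div_of_nonneg_right (h3.trans h4) (by positivity)
    _ = 9 * η * v ^ 2 / u * κ := by
        rw [hκ]
        field_simp
        ring

/-- `F(E)` has density one at infinity. -/
lemma tendsto_gap (E : Set ℝ) (hE0 : E ⊆ Set.Ioi 0) (hE : MeasurableSet E)
    (hpos : volume E ≠ 0) (u v : ℝ) (hu : 0 < u) (huv : u ≤ v) :
    Tendsto (fun n => (gap E u v n).toReal) atTop (𝓝 0) := by
  rw [Metric.tendsto_atTop]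
  intro e he
  have hv : 0 < v := by linarith
  set η : ℝ := e * u / (18 * v ^ 2) with hη
  have hη0 : 0 < η := by positivity
  obtain ⟨c, ρ, hρ, hc, hvol⟩ := exists_dense_interval E hE0 hE hpos η hη0
  obtain ⟨n0, hn0⟩ := exists_nat_ge (c ^ 2 / ρ / u)
  refine ⟨n0 + 1, fun n hn => ?_⟩
  have hnr : (n0 : ℝ) ≤ n := by exact_mod_cast (by omega : n0 ≤ n)
  have h1 := gap_le E u v c ρ η hu huv hρ hc hη0.le hE hvol n (by
    have : c ^ 2 / ρ / u ≤ n := hn0.trans hnr
    rwa [div_le_iff₀ hu] at this) (by omega)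
  rw [Real.dist_eq, sub_zero, abs_of_nonneg ENNReal.toReal_nonneg]
  have h2 := ENNReal.toReal_mono ENNReal.ofReal_ne_top h1
  rw [ENNReal.toReal_ofReal (by positivity)] at h2
  have h3 : 9 * η * v ^ 2 / u = e / 2 := by
    rw [hη]
    field_simp
    ring
  rw [h3] at h2
  linarith

end Pool.Agent.H32.HS
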