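import Pool.Agent.H32.KroneckerPrimes

/-!
# The measure of the set where a character is close to one
-/

namespace Pool.Agent.H32.HS

open Complex MeasureTheory Finset Filter Topology
open Pool.Agent.H32

/-- The exceptional set `{y ∈ [a, b] : |y^{it} - 1| ≤ δ}`. -/
def badSet (a b t δ : ℝ) : Set ℝ := {y : ℝ | y ∈ Set.Icc a b ∧ ‖chi t y - 1‖ ≤ δ}

/-- If `|e^{iφ} - 1| ≤ δ` then `φ` is within `2 δ` of an integer multiple of `2 π`. -/
lemma close_to_int_mul (φ δ : ℝ) (h : ‖exp ((φ : ℂ) * I) - 1‖ ≤ δ) :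
    ∃ m : ℤ, |φ - 2 * Real.pi * m| ≤ 2 * δ := by
  have hpi := Real.pi_pos
  refine ⟨round (φ / (2 * Real.pi)), ?_⟩
  set m : ℤ := round (φ / (2 * Real.pi)) with hm
  have h1 : |φ / (2 * Real.pi) - m| ≤ 1 / 2 := abs_sub_round _
  set ψ : ℝ := φ - 2 * Real.pi * m with hψ
  have h2 : |ψ| ≤ Real.pi := by
    have : ψ = (2 * Real.pi) * (φ / (2 * Real.pi) - m) := by
      rw [hψ]; field_simp
    rw [this, abs_mul, abs_of_pos (by positivity)]
    nlinarith
  have h3 : exp ((φ : ℂ) * I) = exp ((ψ : ℂ) * I) := by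
    rw [hψ]
    push_cast
    rw [sub_mul, Complex.exp_sub]
    have : exp (2 * (Real.pi : ℂ) * (m : ℂ) * I) = 1 := by
      rw [show 2 * (Real.pi : ℂ) * (m : ℂ) * I = m * (2 * Real.pi * I) by ring]
      exact Complex.exp_int_mul_two_pi_mul_I m
    rw [this, div_one]
  rw [h3] at h
  -- |e^{iψ} - 1| = 2 |sin (ψ / 2)| ≥ (2 / π) |ψ|
  have h4 : ‖exp ((ψ : ℂ) * I) - 1‖ = 2 * |Real.sin (ψ / 2)| := by
    rw [mul_comm, Complex.norm_exp_I_mul_ofReal_sub_one]
    rw [norm_mul]
    simp [Real.norm_eq_abs]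
  rw [h4] at h
  have h5 : 2 / Real.pi * |ψ / 2| ≤ |Real.sin (ψ / 2)| := by
    apply Real.mul_abs_le_abs_sin
    rw [abs_div, abs_of_pos (by norm_num : (0 : ℝ) < 2)]
    linarith
  rw [abs_div, abs_of_pos (by norm_num : (0 : ℝ) < 2)] at h5
  have h6 : |ψ| / Real.pi ≤ |Real.sin (ψ / 2)| := by
    calc |ψ| / Real.pi = 2 / Real.pi * (|ψ| / 2) := by ring
      _ ≤ _ := h5
  have h7 : |ψ| / Real.pi * 2 ≤ δ := by linarith
  have h8 : |ψ| * 2 ≤ δ * Real.pi := by
    have : |ψ| / Real.pi * 2 * Real.pi ≤ δ * Real.pi :=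
      mul_le_mul_of_nonneg_right h7 hpi.le
    calc |ψ| * 2 = |ψ| / Real.pi * 2 * Real.pi := by field_simp
      _ ≤ _ := this
  have hδ : 0 ≤ δ := by
    have := abs_nonneg (Real.sin (ψ / 2)); linarith
  have hpi4 := Real.pi_le_four
  nlinarith

/-- The exceptional set has measure at most `8 b (log b - log a + 2) δ` when `t ≥ 1`, `δ ≤ 1/4`. -/
lemma volume_badSet_le (a b : ℝ) (ha : 0 < a) (hab : a ≤ b) (t δ : ℝ) (ht : 1 ≤ t) (hδ0 : 0 ≤ δ)
    (hδ : δ ≤ 1 / 4) :
    volume (badSet a b t δ) ≤ ENNReal.ofReal (8 * b * (Real.log b - Real.log a + 2) * δ) := by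
  have hpi := Real.pi_pos
  have hpi3 := Real.pi_gt_three
  have ht0 : 0 < t := by linarith
  set s : ℝ := 2 * δ with hs
  have hb0 : 0 < b := lt_of_lt_of_le ha hab
  have hlab : Real.log a ≤ Real.log b := Real.log_le_log ha hab
  set u : ℤ := ⌈(t * Real.log a - s) / (2 * Real.pi)⌉ with hu
  set v : ℤ := ⌊(t * Real.log b + s) / (2 * Real.pi)⌋ with hv
  have hsub : badSet a b t δ ⊆ ⋃ m ∈ Finset.Icc u v,
      Set.Icc (Real.exp ((2 * Real.pi * m - s) / t)) (Real.exp ((2 * Real.pi * m + s) / t)) := by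
    intro y hy
    obtain ⟨⟨hy8, hy9⟩, hy⟩ := hy
    have hy0 : 0 < y := lt_of_lt_of_le ha hy8
    rw [chi_eq] at hy
    obtain ⟨m, hm⟩ := close_to_int_mul _ _ hy
    rw [abs_le] at hm
    have hl8 : Real.log a ≤ Real.log y := Real.log_le_log ha hy8
    have hl9 : Real.log y ≤ Real.log b := Real.log_le_log hy0 hy9
    have hm1 : t * Real.log a - s ≤ 2 * Real.pi * m := by
      have : t * Real.log a ≤ t * Real.log y := mul_le_mul_of_nonneg_left hl8 ht0.le
      linarith [hm.2]
    have hm2 : 2 * Real.pi * m ≤ t * Real.log b + s := by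
      have : t * Real.log y ≤ t * Real.log b := mul_le_mul_of_nonneg_left hl9 ht0.le
      linarith [hm.1]
    simp only [Set.mem_iUnion]
    refine ⟨m, ?_, ?_, ?_⟩
    · rw [Finset.mem_Icc]
      constructor
      · rw [hu, Int.ceil_le, div_le_iff₀ (by positivity)]
        linarith
      · rw [hv, Int.le_floor, le_div_iff₀ (by positivity)]
        linarith
    · rw [← Real.le_log_iff_exp_le hy0, div_le_iff₀ ht0]
      linarith [hm.1]
    · rw [← Real.log_le_iff_le_exp hy0, le_div_iff₀ ht0]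
      linarith [hm.2]
  have hlen : ∀ m ∈ Finset.Icc u v,
      volume (Set.Icc (Real.exp ((2 * Real.pi * m - s) / t)) (Real.exp ((2 * Real.pi * m + s) / t)))
        ≤ ENNReal.ofReal (4 * b * s / t) := by
    intro m hm
    rw [Real.volume_Icc]
    apply ENNReal.ofReal_le_ofReal
    rw [Finset.mem_Icc] at hm
    have hm2 : 2 * Real.pi * m ≤ t * Real.log b + s := by
      have := hm.2
      rw [hv, Int.le_floor, le_div_iff₀ (by positivity)] at this
      linarith
    have e1 : Real.exp ((2 * Real.pi * m + s) / t) =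
        Real.exp ((2 * Real.pi * m - s) / t) * Real.exp (2 * s / t) := by
      rw [← Real.exp_add]; congr 1; ring
    have e2 : Real.exp ((2 * Real.pi * m - s) / t) ≤ b := by
      calc Real.exp ((2 * Real.pi * m - s) / t) ≤ Real.exp (Real.log b) := by
            rw [Real.exp_le_exp, div_le_iff₀ ht0]; linarith
        _ = b := Real.exp_log hb0
    have hu0 : 0 ≤ 2 * s / t := by positivity
    have hu1 : 2 * s / t ≤ 1 := by
      rw [div_le_one ht0]; linarith
    have e3 : Real.exp (2 * s / t) - 1 ≤ 2 * (2 * s / t) := by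
      have h1 := Real.abs_exp_sub_one_le (x := 2 * s / t) (by rw [abs_of_nonneg hu0]; exact hu1)
      rw [abs_of_nonneg hu0] at h1
      exact (le_abs_self _).trans h1
    have e4 : 0 ≤ Real.exp (2 * s / t) - 1 := by
      have := Real.add_one_le_exp (2 * s / t); linarith
    rw [e1]
    have e5 : Real.exp ((2 * Real.pi * m - s) / t) * Real.exp (2 * s / t) -
        Real.exp ((2 * Real.pi * m - s) / t) =
        Real.exp ((2 * Real.pi * m - s) / t) * (Real.exp (2 * s / t) - 1) := by ring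
    rw [e5]
    calc Real.exp ((2 * Real.pi * m - s) / t) * (Real.exp (2 * s / t) - 1)
        ≤ b * (2 * (2 * s / t)) := by
          apply mul_le_mul e2 e3 e4 hb0.le
      _ = 4 * b * s / t := by ring
  set L : ℝ := Real.log b - Real.log a with hL
  have hL0 : 0 ≤ L := by rw [hL]; linarith
  have hcard : ((Finset.Icc u v).card : ℝ) ≤ t * (L + 2) := by
    rw [Int.card_Icc]
    have h0 : (((v + 1 - u).toNat : ℕ) : ℝ) = max ((v + 1 - u : ℤ) : ℝ) 0 := by
      have : (((v + 1 - u).toNat : ℕ) : ℝ) = (((v + 1 - u).toNat : ℤ) : ℝ) := by push_cast; rfl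
      rw [this, Int.toNat_eq_max]
      push_cast
      rfl
    rw [h0]
    apply max_le _ (by positivity)
    have h1 : (v : ℝ) ≤ (t * Real.log b + s) / (2 * Real.pi) := Int.floor_le _
    have h2 : (t * Real.log a - s) / (2 * Real.pi) ≤ u := Int.le_ceil _
    push_cast
    have h4 : (t * Real.log b + s) / (2 * Real.pi) - (t * Real.log a - s) / (2 * Real.pi) ≤
        t * L + 1 := by
      rw [← sub_div, div_le_iff₀ (by positivity)]
      have h5 : t * Real.log b + s - (t * Real.log a - s) = t * L + 2 * s := by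
        rw [hL]; ring
      rw [h5]
      have h6 : 0 ≤ t * L := by positivity
      nlinarith
    nlinarith
  calc volume (badSet a b t δ)
      ≤ volume (⋃ m ∈ Finset.Icc u v,
      Set.Icc (Real.exp ((2 * Real.pi * m - s) / t)) (Real.exp ((2 * Real.pi * m + s) / t))) :=
        measure_mono hsub
    _ ≤ ∑ m ∈ Finset.Icc u v, volume (Set.Icc (Real.exp ((2 * Real.pi * m - s) / t))
        (Real.exp ((2 * Real.pi * m + s) / t))) := measure_biUnion_finset_le _ _
    _ ≤ ∑ m ∈ Finset.Icc u v, ENNReal.ofReal (4 * b * s / t) := Finset.sum_le_sum hlen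
    _ = ENNReal.ofReal (((Finset.Icc u v).card : ℝ) * (4 * b * s / t)) := by
        rw [Finset.sum_const, nsmul_eq_mul, ENNReal.ofReal_mul (by positivity),
          ENNReal.ofReal_natCast]
    _ ≤ ENNReal.ofReal (8 * b * (L + 2) * δ) := by
        apply ENNReal.ofReal_le_ofReal
        calc ((Finset.Icc u v).card : ℝ) * (4 * b * s / t) ≤ (t * (L + 2)) * (4 * b * s / t) :=
              mul_le_mul_of_nonneg_right hcard (by positivity)
          _ = 8 * b * (L + 2) * δ := by rw [hs]; field_simp; ring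

end Pool.Agent.H32.HS
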