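import Pool.Agent.H32.HS.Win

/-!
# One stage of the construction

For `η, κ > 0` and `K` there are arbitrarily large `N ≤ N' ≤ (1 + κ) N` and `t ≥ 1` such that
`χ(x) = x ^ (i t)` is `η`-close to `1` at all integers `k ≤ K N'` without a prime factor in
`(N, N']` and such that for every `x > 0` there are many primes `p ∈ (N, N']` with `χ(p x)` within
`2 η` of `1`.
-/

namespace Pool.Agent.H32.HS

open Complex MeasureTheory Finset Filter Topology
open Pool.Agent.H32

/-- If `χ` is `ε`-close to `1` at all prime factors of `k`, it is `k ε` close to `1` at `k`. -/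
lemma chi_nat_close' (t ε : ℝ) (hε : 0 ≤ ε) :
    ∀ k : ℕ, 1 ≤ k → (∀ p : ℕ, p.Prime → p ∣ k → ‖chi t p - 1‖ ≤ ε) →
      ‖chi t k - 1‖ ≤ k * ε := by
  intro k
  induction k using Nat.strong_induction_on with
  | _ k ih =>
    intro hk1 h
    rcases Nat.lt_or_ge 1 k with hk | hk
    · have hd := Nat.minFac_dvd k
      obtain ⟨m, hm⟩ := hd
      have hp : (Nat.minFac k).Prime := Nat.minFac_prime (by omega)
      have h2 := h _ hp (Nat.minFac_dvd k)
      set q := Nat.minFac k with hq
      have hq2 := hp.two_le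
      have hmpos : 1 ≤ m := by
        rcases Nat.eq_zero_or_pos m with h0 | h0
        · rw [h0, mul_zero] at hm; omega
        · exact h0
      have hmk : m < k := by
        rw [hm]; nlinarith
      have h1 := ih m hmk hmpos (fun p hp' hpm => h p hp' (hm ▸ Dvd.dvd.mul_left hpm q))
      have h3 : chi t (k : ℝ) = chi t (q : ℝ) * chi t (m : ℝ) := by
        rw [← chi_mul t _ _ (by exact_mod_cast hp.pos) (by exact_mod_cast hmpos)]
        congr 1
        rw [hm]; push_cast; ring
      rw [h3]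
      refine (norm_mul_sub_one_le _ _ (norm_chi _ _)).trans ?_
      have h4 : (m : ℝ) + 1 ≤ k := by exact_mod_cast hmk
      nlinarith
    · have : k = 1 := by omega
      subst this
      simp [chi_one, hε]

/-- The `m`-th roots of unity: the value depends on the class modulo `m` only. -/
lemma exp_class (m : ℕ) (hm : 0 < m) (θ : ℝ) (i q s : ℤ) (h : q = i + s * m) :
    exp (I * ((2 * Real.pi * i / m + θ : ℝ) : ℂ)) = exp (I * ((2 * Real.pi * q / m + θ : ℝ) : ℂ)) := by
  have hmr : (m : ℝ) ≠ 0 := by exact_mod_cast hm.ne'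
  have h7 : (2 * Real.pi * q / m + θ : ℝ) = (2 * Real.pi * i / m + θ) + (s : ℝ) * (2 * Real.pi) := by
    rw [h]
    push_cast
    field_simp
    ring
  rw [h7]
  have h8 : exp (I * ((s : ℂ) * (2 * (Real.pi : ℂ)))) = 1 := by
    rw [show I * ((s : ℂ) * (2 * (Real.pi : ℂ))) = (s : ℂ) * (2 * Real.pi * I) by ring]
    exact Complex.exp_int_mul_two_pi_mul_I _
  have h9 : I * (((2 * Real.pi * i / m + θ) + (s : ℝ) * (2 * Real.pi) : ℝ) : ℂ) =
      I * ((2 * Real.pi * i / m + θ : ℝ) : ℂ) + I * ((s : ℂ) * (2 * (Real.pi : ℂ))) := by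
    push_cast
    ring
  rw [h9, Complex.exp_add, h8, mul_one]

/-- One stage of the construction. -/
lemma stage (η κ : ℝ) (hη : 0 < η) (hκ : 0 < κ) (K : ℕ) (hK : 1 ≤ K) (δ : ℕ → ℝ)
    (hδ : Tendsto δ atTop (𝓝 0)) (N0 : ℕ) : ∃ (N N' : ℕ) (t : ℝ), N0 ≤ N ∧ 1 ≤ N ∧ N ≤ N' ∧
    (N' : ℝ) ≤ (1 + κ) * N ∧ 1 ≤ t ∧
    (∀ k : ℕ, 1 ≤ k → k ≤ K * N' → (∀ p : ℕ, p.Prime → N < p → p ≤ N' → ¬ p ∣ k) →
      ‖chi t k - 1‖ ≤ η) ∧
    (∀ x : ℝ, 0 < x → |δ N'| * (N' / Real.log N') + 1 ≤
      (((Finset.Ioc N N').filter fun p : ℕ => p.Prime ∧ ‖chi t (p * x) - 1‖ ≤ 2 * η).card : ℝ)) := by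
  have hpi := Real.pi_pos
  obtain ⟨m, hm⟩ := exists_nat_ge (2 * Real.pi / η + 1)
  have hm1 : (1 : ℝ) ≤ m := by
    have : 0 ≤ 2 * Real.pi / η := by positivity
    linarith
  have hm0 : 0 < m := by exact_mod_cast (by linarith : (0 : ℝ) < m)
  obtain ⟨N, N', hN0, hN1, hNN', hN'κ, hcard⟩ := exists_window κ hκ m δ hδ N0
  have hN'1 : 1 ≤ N' := hN1.trans hNN'
  have hN'r : (1 : ℝ) ≤ N' := by exact_mod_cast hN'1
  have hKr : (1 : ℝ) ≤ K := by exact_mod_cast hK
  set P : Finset ℕ := (Finset.Ioc N N').filter Nat.Prime with hP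
  set n : ℕ := P.card with hn
  classical
  have hequiv := P.equivFinOfCardEq hn.symm
  set α : ℕ → ℝ := fun p => if hp : p ∈ P then 2 * Real.pi * ((hequiv ⟨p, hp⟩ : Fin n) : ℕ) / m
    else 0 with hα
  set S : Finset ℕ := (Finset.Icc 1 (K * N')).filter Nat.Prime with hS
  have hSprime : ∀ p ∈ S, p.Prime := by
    intro p hp
    exact (Finset.mem_filter.mp hp).2
  have hPS : P ⊆ S := by
    intro p hp
    rw [hP, Finset.mem_filter, Finset.mem_Ioc] at hp
    rw [hS, Finset.mem_filter, Finset.mem_Icc]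
    refine ⟨⟨by omega, hp.1.2.trans ?_⟩, hp.2⟩
    exact Nat.le_mul_of_pos_left N' hK
  obtain ⟨t, ht, hclose⟩ := kronecker_primes S hSprime α (η / (K * N')) (by positivity) 1
  have hηN : η / (K * N') ≤ η := by
    apply div_le_self hη.le
    nlinarith
  refine ⟨N, N', t, hN0, hN1, hNN', hN'κ, ht, ?_, ?_⟩
  · intro k hk1 hkN hfree
    have h1 := chi_nat_close' t (η / (K * N')) (by positivity) k hk1 ?_
    · refine h1.trans ?_
      have hkr : (k : ℝ) ≤ K * N' := by exact_mod_cast hkN
      calc (k : ℝ) * (η / (K * N')) ≤ (K * N') * (η / (K * N')) :=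
            mul_le_mul_of_nonneg_right hkr (by positivity)
        _ = η := by field_simp
    · intro p hp hpk
      have hpk' : p ≤ k := Nat.le_of_dvd (by omega) hpk
      have hpS : p ∈ S := by
        rw [hS, Finset.mem_filter, Finset.mem_Icc]
        exact ⟨⟨hp.one_le, hpk'.trans hkN⟩, hp⟩
      have hpQ : p ∉ P := by
        intro h
        rw [hP, Finset.mem_filter, Finset.mem_Ioc] at h
        exact hfree p hp h.1.1 h.1.2 hpk
      have h2 := hclose p hpS
      have h3 : α p = 0 := by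
        simp only [hα]
        rw [dif_neg hpQ]
      rw [h3] at h2
      simpa [chi] using h2
  · intro x hx
    -- choose the residue
    set θ : ℝ := t * Real.log x with hθ
    set u : ℝ := -(θ * m / (2 * Real.pi)) with hu
    set q : ℤ := ⌊u⌋ with hq
    have hmz : (0 : ℤ) < m := by exact_mod_cast hm0
    have hi0 : 0 ≤ q % m := Int.emod_nonneg _ hmz.ne'
    have hi1 : q % m < m := Int.emod_lt_of_pos _ hmz
    set i : ℕ := (q % m).toNat with hi
    have hicast : (i : ℤ) = q % m := Int.toNat_of_nonneg hi0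
    have him : i < m := by
      have : (i : ℤ) < m := by rw [hicast]; exact hi1
      exact_mod_cast this
    -- the good primes
    have hlt : ∀ s : Fin (n / m), (s : ℕ) * m + i < n := by
      intro s
      have h1 : (s : ℕ) + 1 ≤ n / m := s.2
      have h2 : ((s : ℕ) + 1) * m ≤ n := (Nat.mul_le_mul_right m h1).trans (Nat.div_mul_le_self n m)
      have h3 : ((s : ℕ) + 1) * m = (s : ℕ) * m + m := by ring
      omega
    have hgood : ∀ s : Fin (n / m), ((hequiv.symm ⟨(s : ℕ) * m + i, hlt s⟩ : P) : ℕ) ∈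
        (Finset.Ioc N N').filter fun p : ℕ => p.Prime ∧ ‖chi t (p * x) - 1‖ ≤ 2 * η := by
      intro s
      set p : P := hequiv.symm ⟨(s : ℕ) * m + i, hlt s⟩ with hp
      have hpQ : (p : ℕ) ∈ P := p.2
      have hpP := Finset.mem_filter.1 hpQ
      have hαp : α p = 2 * Real.pi * ((s : ℕ) * m + i : ℕ) / m := by
        simp only [hα]
        rw [dif_pos hpQ]
        have : hequiv ⟨(p : ℕ), hpQ⟩ = ⟨(s : ℕ) * m + i, hlt s⟩ := by
          rw [Subtype.coe_eta, hp, Equiv.apply_symm_apply]
        rw [this]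
      rw [Finset.mem_filter]
      refine ⟨hpP.1, hpP.2, ?_⟩
      have hpS : (p : ℕ) ∈ S := hPS hpQ
      have hpr : (0 : ℝ) < ((p : ℕ) : ℝ) := by exact_mod_cast hpP.2.pos
      have h1 := (hclose p hpS).trans hηN
      -- decompose
      have h2 : chi t (((p : ℕ) : ℝ) * x) = exp (I * (t * Real.log ((p : ℕ) : ℝ) - α p)) *
          exp (I * ((α p + θ : ℝ) : ℂ)) := by
        unfold chi
        rw [← Complex.exp_add, Real.log_mul hpr.ne' hx.ne', hθ]
        congr 1
        push_cast
        ring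
      have h3 : ‖exp (I * (t * Real.log ((p : ℕ) : ℝ) - α p))‖ = 1 := by
        have : I * ((t : ℂ) * Real.log ((p : ℕ) : ℝ) - α p) =
            ((t * Real.log ((p : ℕ) : ℝ) - α p : ℝ) : ℂ) * I := by
          push_cast; ring
        rw [this, Complex.norm_exp_ofReal_mul_I]
      rw [h2]
      refine (norm_mul_sub_one_le _ _ h3).trans ?_
      have hmr : (0 : ℝ) < m := by linarith
      have h4 : exp (I * ((α p + θ : ℝ) : ℂ)) = exp (I * ((2 * Real.pi * q / m + θ : ℝ) : ℂ)) := by
        rw [hαp]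
        have hdiv : q = m * (q / m) + q % m := (Int.mul_ediv_add_emod q m).symm
        have := exp_class m hm0 θ (((s : ℕ) * m + i : ℕ) : ℤ) q (q / m - (s : ℕ)) (by
          push_cast
          rw [hicast]
          linear_combination hdiv)
        rw [← this]
        congr 3
      rw [h4]
      have h9 : ‖exp (I * ((2 * Real.pi * q / m + θ : ℝ) : ℂ)) - 1‖ ≤ ‖2 * Real.pi * q / m + θ‖ :=
        Real.norm_exp_I_mul_ofReal_sub_one_le
      have h10 : ‖2 * Real.pi * q / m + θ‖ ≤ η := by
        have h11 : 2 * Real.pi * q / m + θ = (2 * Real.pi / m) * (q - u) := by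
          rw [hu]; field_simp; ring
        have h12 : |(q : ℝ) - u| ≤ 1 := by
          rw [abs_le]
          have h13 := Int.floor_le u
          have h14 := Int.lt_floor_add_one u
          constructor <;> linarith
        rw [h11, Real.norm_eq_abs, abs_mul, abs_of_pos (by positivity)]
        have h15 : 2 * Real.pi / m ≤ η := by
          rw [div_le_iff₀ hmr]
          have h16 : 2 * Real.pi / η ≤ m := by linarith
          rw [div_le_iff₀ hη] at h16
          linarith
        calc 2 * Real.pi / m * |(q : ℝ) - u| ≤ η * 1 := by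
              apply mul_le_mul h15 h12 (abs_nonneg _) hη.le
          _ = η := mul_one η
      linarith
    have hcard2 : n / m ≤
        ((Finset.Ioc N N').filter fun p : ℕ => p.Prime ∧ ‖chi t (p * x) - 1‖ ≤ 2 * η).card := by
      have := Finset.card_le_card_of_injOn (s := (Finset.univ : Finset (Fin (n / m))))
        (fun s => ((hequiv.symm ⟨(s : ℕ) * m + i, hlt s⟩ : P) : ℕ)) (fun s _ => hgood s) (by
          intro s _ s' _ hss
          have h1 := hequiv.symm.injective (Subtype.ext hss)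
          rw [Fin.mk.injEq] at h1
          have h2 : (s : ℕ) * m = s' * m := by omega
          exact Fin.ext (Nat.eq_of_mul_eq_mul_right hm0 h2))
      rwa [Finset.card_univ, Fintype.card_fin] at this
    have h1 : (n : ℝ) < m * ((n / m : ℕ) + 1) := by
      have : n < m * (n / m + 1) := by
        have := Nat.lt_mul_div_succ n hm0
        exact this
      exact_mod_cast this
    have h2 : (m : ℝ) * (|δ N'| * (N' / Real.log N') + 2) < m * ((n / m : ℕ) + 1) :=
      lt_of_le_of_lt hcard h1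
    have h3 : |δ N'| * (N' / Real.log N') + 2 < ((n / m : ℕ) : ℝ) + 1 :=
      lt_of_mul_lt_mul_left h2 (by positivity)
    have h4 : ((n / m : ℕ) : ℝ) ≤
      (((Finset.Ioc N N').filter fun p : ℕ => p.Prime ∧ ‖chi t (p * x) - 1‖ ≤ 2 * η).card : ℝ) := by
      exact_mod_cast hcard2
    linarith

end Pool.Agent.H32.HS
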