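import Pool.Agent.H32.HS.Defs
import Pool.Agent.H32.HS.Stage
import Pool.Agent.H32.HS.Meas

/-!
# Haight's property fails outside `F(E)` for a dense class of sets
-/

namespace Pool.Agent.H32.HS

open Complex MeasureTheory Finset Filter Topology
open Pool.Agent.H32

/-- `F(E)` is closed in the positive reals when `E` is compact. -/
lemma dilateUnion_closed_at {E : Set ℝ} (hE : IsCompact E) {a : ℝ} (ha : 0 < a)
    (hEa : ∀ y ∈ E, a ≤ y) {x : ℝ} (hx : x ∉ dilateUnion E) :
    ∃ d : ℝ, 0 < d ∧ ∀ z : ℝ, |z - x| < d → z ∉ dilateUnion E := by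
  set R : ℕ := ⌈(|x| + 1) / a⌉₊ with hR
  have hclosed : IsClosed (⋃ r ∈ Finset.Icc 1 R, (fun y : ℝ => (r : ℝ) * y) '' E) := by
    refine isClosed_biUnion_finset fun r _ => ?_
    exact (hE.image (by fun_prop)).isClosed
  have hxC : x ∈ (⋃ r ∈ Finset.Icc 1 R, (fun y : ℝ => (r : ℝ) * y) '' E)ᶜ := by
    intro h
    rw [Set.mem_iUnion₂] at h
    obtain ⟨r, hr, y, hy, hry⟩ := h
    rw [Finset.mem_Icc] at hr
    exact hx (mem_dilateUnion.2 ⟨r, hr.1, y, hy, hry⟩)
  obtain ⟨d, hd, hball⟩ := Metric.isOpen_iff.1 hclosed.isOpen_compl x hxC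
  refine ⟨min d 1, lt_min hd one_pos, fun z hz hzF => ?_⟩
  have hz1 : |z - x| < d := lt_of_lt_of_le hz (min_le_left _ _)
  have hz2 : |z - x| < 1 := lt_of_lt_of_le hz (min_le_right _ _)
  have hzC := hball (show z ∈ Metric.ball x d by rw [Metric.mem_ball, Real.dist_eq]; exact hz1)
  apply hzC
  obtain ⟨r, hr, y, hy, rfl⟩ := mem_dilateUnion.1 hzF
  rw [Set.mem_iUnion₂]
  refine ⟨r, ?_, y, hy, rfl⟩
  rw [Finset.mem_Icc]
  refine ⟨hr, ?_⟩
  have h1 : (r : ℝ) ≤ (|x| + 1) / a := by
    rw [le_div_iff₀ ha]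
    have h2 : (r : ℝ) * a ≤ r * y := mul_le_mul_of_nonneg_left (hEa y hy) (by positivity)
    have h3 : (r : ℝ) * y ≤ |x| + 1 := by
      have := abs_lt.1 hz2
      have := le_abs_self x
      linarith
    linarith
  have h2 : (r : ℝ) ≤ (R : ℝ) := h1.trans (Nat.le_ceil _)
  exact_mod_cast h2

/-- The key step: a good prime moves `x` to a point outside `F(E)`. -/
lemma key {E : Set ℝ} {a : ℝ} (ha : 0 < a) (hEa : ∀ y ∈ E, a ≤ y) {η κ t : ℝ} (hη : 0 < η)
    {K N N' : ℕ} (hN1 : 1 ≤ N) (hN'κ : (N' : ℝ) ≤ (1 + κ) * N)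
    (hEt : ∀ y ∈ E, 4 * η ≤ ‖chi t y - 1‖)
    (hsmall : ∀ k : ℕ, 1 ≤ k → k ≤ K * N' → (∀ p : ℕ, p.Prime → N < p → p ≤ N' → ¬ p ∣ k) →
      ‖chi t k - 1‖ ≤ η)
    {x : ℝ} (hx : 0 < x) (hxK : x ≤ K * a) (hxF : ∀ z : ℝ, |z - x| ≤ κ * x → z ∉ dilateUnion E)
    {p : ℕ} (hp : N < p) (hp' : p ≤ N') (hgood : ‖chi t (p * x) - 1‖ ≤ 2 * η) :
    (p : ℝ) * x ∉ dilateUnion E := by
  intro hmem
  obtain ⟨r, hr, y, hy, hry⟩ := mem_dilateUnion.1 hmem
  have hay := hEa y hy
  have hy0 : 0 < y := lt_of_lt_of_le ha hay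
  have hpr : (0 : ℝ) < p := by exact_mod_cast (by omega : 0 < p)
  have hrr : (0 : ℝ) < r := by exact_mod_cast hr
  have hNr : (1 : ℝ) ≤ N := by exact_mod_cast hN1
  have hNp : (N : ℝ) < p := by exact_mod_cast hp
  have hpN' : (p : ℝ) ≤ N' := by exact_mod_cast hp'
  have hrK : r ≤ K * N' := by
    have h1 : (r : ℝ) * a ≤ (K * N' : ℕ) * a := by
      calc (r : ℝ) * a ≤ r * y := mul_le_mul_of_nonneg_left hay hrr.le
        _ = p * x := hry
        _ ≤ N' * (K * a) := mul_le_mul hpN' hxK hx.le (by positivity)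
        _ = (K * N' : ℕ) * a := by push_cast; ring
    have h2 : (r : ℝ) ≤ (K * N' : ℕ) := le_of_mul_le_mul_right h1 ha
    exact_mod_cast h2
  by_cases hex : ∃ p' : ℕ, p'.Prime ∧ N < p' ∧ p' ≤ N' ∧ p' ∣ r
  · obtain ⟨p', hp'1, hp'2, hp'3, m, rfl⟩ := hex
    have hp'r : (0 : ℝ) < p' := by exact_mod_cast hp'1.pos
    have hNp'' : (N : ℝ) < p' := by exact_mod_cast hp'2
    have hp'N' : (p' : ℝ) ≤ N' := by exact_mod_cast hp'3
    have hm1 : 1 ≤ m := by
      rcases Nat.eq_zero_or_pos m with h0 | h0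
      · rw [h0, mul_zero] at hr; omega
      · exact h0
    have hz : x * (p / p') = (m : ℝ) * y := by
      push_cast at hry
      field_simp
      linarith
    refine hxF (x * (p / p')) ?_ ?_
    · have h1 : x * ((p : ℝ) / p') - x = x * ((p - p') / p') := by
        field_simp
      rw [h1, abs_mul, abs_of_pos hx, mul_comm κ x]
      apply mul_le_mul_of_nonneg_left _ hx.le
      rw [abs_div, abs_of_pos hp'r, div_le_iff₀ hp'r]
      have hκ : 0 ≤ κ := by nlinarith
      have h2 : |(p : ℝ) - p'| ≤ κ * N := by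
        rw [abs_le]
        constructor <;> nlinarith
      nlinarith
    · rw [hz]
      exact mem_dilateUnion.2 ⟨m, hm1, y, hy, rfl⟩
  · push Not at hex
    have hr1 := hsmall r hr hrK fun q hq h1 h2 h3 => hex q hq h1 h2 h3
    have h3 : chi t (p * x) = chi t r * chi t y := by
      rw [← hry, chi_mul _ _ _ hrr hy0]
    have h4 : ‖chi t y - 1‖ ≤ 3 * η := by
      have h5 : chi t r * (chi t y - 1) = (chi t (p * x) - 1) - (chi t r - 1) := by
        rw [h3]; ring
      have h6 : ‖chi t y - 1‖ = ‖chi t r * (chi t y - 1)‖ := by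
        rw [norm_mul, norm_chi, one_mul]
      rw [h6, h5]
      refine (norm_sub_le _ _).trans ?_
      linarith
    have := hEt y hy
    linarith

/-- Compact sets of positive reals are bounded away from zero. -/
lemma exists_bounds {K : Set ℝ} (hK : IsCompact K) (hK0 : K ⊆ Set.Ioi 0) :
    ∃ a b : ℝ, 0 < a ∧ a ≤ b ∧ K ⊆ Set.Icc a b := by
  rcases K.eq_empty_or_nonempty with h | h
  · exact ⟨1, 1, one_pos, le_rfl, by rw [h]; exact Set.empty_subset _⟩
  · obtain ⟨a, haK, ha⟩ := hK.exists_isLeast h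
    obtain ⟨b, hbK, hb⟩ := hK.exists_isGreatest h
    exact ⟨a, b, hK0 haK, ha hbK, fun y hy => ⟨ha hy, hb hy⟩⟩

lemma continuousOn_chi (t : ℝ) {K : Set ℝ} (hK0 : K ⊆ Set.Ioi 0) :
    ContinuousOn (fun y => ‖chi t y - 1‖) K := by
  unfold chi
  have h1 : ContinuousOn (fun y : ℝ => Real.log y) K :=
    Real.continuousOn_log.mono fun y hy => (hK0 hy).ne'
  fun_prop

lemma measurableSet_dilateUnion {E : Set ℝ} (hE : IsCompact E) :
    MeasurableSet (dilateUnion E) := by
  unfold dilateUnion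
  refine MeasurableSet.iUnion fun r => MeasurableSet.iUnion fun _ => ?_
  exact (hE.image (by fun_prop)).isClosed.measurableSet

/-- **Haight's property fails as badly as possible for a dense class of sets.** -/
theorem neg (δ : ℕ → ℝ) (hδ : Tendsto δ atTop (𝓝 0)) (A : Set ℝ) (hA0 : A ⊆ Set.Ioi 0)
    (hA : NullMeasurableSet A volume) (hAfin : volume A ≠ ⊤) (ε : ℝ) (hε : 0 < ε) :
    ∃ E : Set ℝ, E ⊆ A ∧ IsCompact E ∧ volume (A \ E) ≤ ENNReal.ofReal ε ∧
      volume (Set.Ioi 0 \ dilateUnion E) = ⊤ ∧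
      ∀ x : ℝ, 0 < x → x ∉ dilateUnion E →
        {p : ℕ | p.Prime ∧ (p : ℝ) * x ∉ dilateUnion E}.Infinite ∧
        ∃ᶠ N : ℕ in atTop, δ N * (N / Real.log N) ≤
          ({p : ℕ | p.Prime ∧ p ≤ N ∧ (p : ℝ) * x ∉ dilateUnion E}.ncard : ℝ) := by
  -- the compact set
  obtain ⟨A', hA'A, hA'm, hA'ae⟩ := hA.exists_measurable_subset_ae_eq
  have hA'fin : volume A' ≠ ⊤ := ne_top_of_le_ne_top hAfin (measure_mono hA'A)
  obtain ⟨K0, hK0A, hK0c, hK0v⟩ := hA'm.exists_isCompact_sdiff_lt hA'fin
    (ε := ENNReal.ofReal (ε / 2)) (by simpa using hε)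
  have hK0pos : K0 ⊆ Set.Ioi 0 := (hK0A.trans hA'A).trans hA0
  obtain ⟨a, b, ha, hab, hK0ab⟩ := exists_bounds hK0c hK0pos
  have hb : 0 < b := lt_of_lt_of_le ha hab
  -- the parameters
  set C : ℝ := 8 * b * (Real.log b - Real.log a + 2) * 4 with hC
  have hC0 : 0 < C := by
    have := Real.log_le_log ha hab
    have h1 : 0 < Real.log b - Real.log a + 2 := by linarith
    positivity
  set e0 : ℝ := min (1 / 16) (ε / (2 * C)) with he0
  have he0pos : 0 < e0 := lt_min (by norm_num) (by positivity)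
  have he0a : e0 ≤ 1 / 16 := min_le_left _ _
  have he0b : C * e0 ≤ ε / 2 := by
    have h1 : e0 ≤ ε / (2 * C) := min_le_right _ _
    calc C * e0 ≤ C * (ε / (2 * C)) := mul_le_mul_of_nonneg_left h1 hC0.le
      _ = ε / 2 := by field_simp
  set η : ℕ → ℝ := fun j => e0 * (1 / 2) * (1 / 2) ^ j with hη
  have hη0 : ∀ j, 0 < η j := fun j => by simp only [hη]; positivity
  have hη1 : ∀ j, 4 * η j ≤ 1 / 4 := fun j => by
    simp only [hη]
    have : ((1 : ℝ) / 2) ^ j ≤ 1 := pow_le_one₀ (by norm_num) (by norm_num)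
    nlinarith
  set κ : ℕ → ℝ := fun j => 1 / ((j : ℝ) + 1) with hκ
  have hκ0 : ∀ j, 0 < κ j := fun j => by simp only [hκ]; positivity
  have hκ1 : ∀ j, κ j ≤ 1 := fun j => by
    simp only [hκ]
    rw [div_le_one (by positivity)]
    have : (0 : ℝ) ≤ j := by positivity
    linarith
  set Kf : ℕ → ℕ := fun j => ⌈((j : ℝ) + 1) / a⌉₊ + 1 with hKf
  have hKf1 : ∀ j, 1 ≤ Kf j := fun j => by simp only [hKf]; omega
  have hKf2 : ∀ j : ℕ, (j : ℝ) + 1 ≤ Kf j * a := fun j => by
    have h1 : ((j : ℝ) + 1) / a ≤ Kf j := by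
      simp only [hKf]
      push_cast
      have := Nat.le_ceil (((j : ℝ) + 1) / a)
      linarith
    rwa [div_le_iff₀ ha] at h1
  choose N N' t hNj hN1 hNN' hN'κ ht hsmall hdense using fun j : ℕ =>
    stage (η j) (κ j) (hη0 j) (hκ0 j) (Kf j) (hKf1 j) δ hδ j
  set E : Set ℝ := ⋂ j : ℕ, K0 ∩ {y | 4 * η j ≤ ‖chi (t j) y - 1‖} with hE
  have hEK0 : E ⊆ K0 := fun y hy => (Set.mem_iInter.1 hy 0).1
  have hEA : E ⊆ A := (hEK0.trans hK0A).trans hA'A
  have hEa : ∀ y ∈ E, a ≤ y := fun y hy => (hK0ab (hEK0 hy)).1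
  have hEclosed : IsClosed E := by
    refine isClosed_iInter fun j => ?_
    exact (continuousOn_chi (t j) hK0pos).preimage_isClosed_of_isClosed hK0c.isClosed isClosed_Ici
  have hEc : IsCompact E := hK0c.of_isClosed_subset hEclosed hEK0
  have hEt : ∀ j, ∀ y ∈ E, 4 * η j ≤ ‖chi (t j) y - 1‖ := fun j y hy =>
    (Set.mem_iInter.1 hy j).2
  -- the good primes
  have hgood : ∀ j : ℕ, ∀ x : ℝ, 0 < x → x ≤ Kf j * a →
      (∀ z : ℝ, |z - x| ≤ κ j * x → z ∉ dilateUnion E) →
      ∀ p ∈ (Finset.Ioc (N j) (N' j)).filter fun p : ℕ =>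
        p.Prime ∧ ‖chi (t j) (p * x) - 1‖ ≤ 2 * η j, (p : ℝ) * x ∉ dilateUnion E := by
    intro j x hx hxK hxF p hp
    rw [Finset.mem_filter, Finset.mem_Ioc] at hp
    exact key ha hEa (hη0 j) (hN1 j) (hN'κ j) (hEt j) (hsmall j) hx hxK hxF hp.1.1 hp.1.2 hp.2.2
  have hFa : ∀ z ∈ dilateUnion E, a ≤ z := by
    intro z hz
    obtain ⟨r, hr, y, hy, rfl⟩ := mem_dilateUnion.1 hz
    have h1 : (1 : ℝ) ≤ r := by exact_mod_cast hr
    have h2 := hEa y hy
    nlinarith
  refine ⟨E, hEA, hEc, ?_, ?_, ?_⟩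
  · -- the measure
    have hsub : A \ E ⊆ ((A \ A') ∪ (A' \ K0)) ∪ ⋃ j : ℕ, badSet a b (t j) (4 * η j) := by
      intro y hy
      by_cases h1 : y ∈ A'
      · by_cases h2 : y ∈ K0
        · right
          have h3 := hy.2
          rw [hE, Set.mem_iInter] at h3
          push Not at h3
          obtain ⟨j, hj⟩ := h3
          rw [Set.mem_iUnion]
          refine ⟨j, hK0ab h2, ?_⟩
          by_contra h4
          push Not at h4
          exact hj ⟨h2, h4.le⟩
        · left; right; exact ⟨h1, h2⟩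
      · left; left; exact ⟨hy.1, h1⟩
    have hnull : volume (A \ A') = 0 := ae_le_set.1 hA'ae.symm.le
    have hbad : volume (⋃ j : ℕ, badSet a b (t j) (4 * η j)) ≤ ENNReal.ofReal (ε / 2) := by
      calc volume (⋃ j : ℕ, badSet a b (t j) (4 * η j))
          ≤ ∑' j, volume (badSet a b (t j) (4 * η j)) := measure_iUnion_le _
        _ ≤ ∑' j, ENNReal.ofReal (C * η j) := by
            apply ENNReal.tsum_le_tsum
            intro j
            refine (volume_badSet_le a b ha hab _ _ (ht j) ?_ (hη1 j)).trans (le_of_eq ?_)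
            · have := hη0 j; positivity
            · rw [hC]; congr 1; ring
        _ = ENNReal.ofReal (∑' j, C * η j) := by
            rw [ENNReal.ofReal_tsum_of_nonneg]
            · intro j; have := hη0 j; positivity
            · simp only [hη]
              have := (summable_geometric_two).mul_left (C * (e0 * (1 / 2)))
              refine this.congr ?_
              intro j; ring
        _ = ENNReal.ofReal (C * e0) := by
            congr 1
            have h1 : ∀ j : ℕ, C * η j = (C * (e0 * (1 / 2))) * (1 / 2) ^ j := by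
              intro j; simp only [hη]; ring
            simp_rw [h1]
            rw [tsum_mul_left, tsum_geometric_two]
            ring
        _ ≤ ENNReal.ofReal (ε / 2) := ENNReal.ofReal_le_ofReal he0b
    calc volume (A \ E) ≤ volume (((A \ A') ∪ (A' \ K0)) ∪ ⋃ j : ℕ, badSet a b (t j) (4 * η j)) :=
          measure_mono hsub
      _ ≤ volume ((A \ A') ∪ (A' \ K0)) + volume (⋃ j : ℕ, badSet a b (t j) (4 * η j)) :=
          measure_union_le _ _
      _ ≤ (volume (A \ A') + volume (A' \ K0)) + ENNReal.ofReal (ε / 2) :=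
          add_le_add (measure_union_le _ _) hbad
      _ ≤ (0 + ENNReal.ofReal (ε / 2)) + ENNReal.ofReal (ε / 2) := by
          rw [hnull]
          exact add_le_add (add_le_add le_rfl hK0v.le) le_rfl
      _ = ENNReal.ofReal ε := by
          rw [zero_add, ← ENNReal.ofReal_add (by positivity) (by positivity), add_halves]
  · -- infinite measure of the complement
    set G : Set ℝ := Set.Ioi 0 \ dilateUnion E with hG
    by_contra hfin
    have hGm : MeasurableSet G := measurableSet_Ioi.diff (measurableSet_dilateUnion hEc)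
    have hlow : ∀ j : ℕ, ENNReal.ofReal (a / 4) ≤ volume (G ∩ Set.Ioi ((N j : ℝ) * (a / 4))) := by
      intro j
      have hNr : (0 : ℝ) < N j := by exact_mod_cast (hN1 j)
      set P : Finset ℕ := (Finset.Ioc (N j) (N' j)).filter Nat.Prime with hP
      have hsub : Set.Ioo (a / 4) (a / 2) ⊆
          ⋃ p ∈ P, ((p : ℝ) * ·) ⁻¹' (G ∩ Set.Ioi ((N j : ℝ) * (a / 4))) := by
        intro x hx
        have hx0 : 0 < x := lt_trans (by positivity) hx.1
        have hd := hdense j x hx0
        have hpos : 0 ≤ |δ (N' j)| * ((N' j : ℝ) / Real.log (N' j)) := by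
          apply mul_nonneg (abs_nonneg _)
          apply div_nonneg (by positivity)
          apply Real.log_nonneg
          exact_mod_cast (hN1 j).trans (hNN' j)
        have hc1 : (1 : ℝ) ≤ (((Finset.Ioc (N j) (N' j)).filter fun p : ℕ =>
            p.Prime ∧ ‖chi (t j) (p * x) - 1‖ ≤ 2 * η j).card : ℝ) := by linarith
        have hc2 : 0 < ((Finset.Ioc (N j) (N' j)).filter fun p : ℕ =>
            p.Prime ∧ ‖chi (t j) (p * x) - 1‖ ≤ 2 * η j).card := by
          exact_mod_cast lt_of_lt_of_le one_pos hc1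
        obtain ⟨p, hp⟩ := Finset.card_pos.1 hc2
        have hpF := hgood j x hx0 (by
          have h1 : (1 : ℝ) ≤ Kf j := by exact_mod_cast hKf1 j
          have h2 : x ≤ a := by linarith [hx.2]
          nlinarith) (by
          intro z hz hzF
          have h1 := hFa z hzF
          have h2 := abs_le.1 hz
          have h3 : κ j * x ≤ x := by
            have := mul_le_mul_of_nonneg_right (hκ1 j) hx0.le
            linarith
          linarith [hx.2]) p hp
        rw [Finset.mem_filter, Finset.mem_Ioc] at hp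
        rw [Set.mem_iUnion₂]
        refine ⟨p, ?_, ?_⟩
        · rw [hP, Finset.mem_filter, Finset.mem_Ioc]
          exact ⟨hp.1, hp.2.1⟩
        · have hpr : (0 : ℝ) < p := by exact_mod_cast hp.2.1.pos
          have hNp : (N j : ℝ) < p := by exact_mod_cast hp.1.1
          refine ⟨⟨?_, hpF⟩, ?_⟩
          · exact Set.mem_Ioi.2 (mul_pos hpr hx0)
          · rw [Set.mem_Ioi]
            exact mul_lt_mul'' hNp hx.1 hNr.le (by positivity)
      have hPcard : (P.card : ℝ) ≤ N j := by
        have h1 : P.card ≤ (Finset.Ioc (N j) (N' j)).card := Finset.card_filter_le _ _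
        rw [Nat.card_Ioc] at h1
        have h2 : (P.card : ℝ) ≤ ((N' j - N j : ℕ) : ℝ) := by exact_mod_cast h1
        rw [Nat.cast_sub (hNN' j)] at h2
        have h3 := hN'κ j
        have h4 : (1 + κ j) * (N j : ℝ) ≤ 2 * N j := by
          have := mul_le_mul_of_nonneg_right (hκ1 j) hNr.le
          linarith
        linarith
      calc ENNReal.ofReal (a / 4) = volume (Set.Ioo (a / 4) (a / 2)) := by
            rw [Real.volume_Ioo]; congr 1; ring
        _ ≤ volume (⋃ p ∈ P, ((p : ℝ) * ·) ⁻¹' (G ∩ Set.Ioi ((N j : ℝ) * (a / 4)))) :=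
            measure_mono hsub
        _ ≤ ∑ p ∈ P, volume (((p : ℝ) * ·) ⁻¹' (G ∩ Set.Ioi ((N j : ℝ) * (a / 4)))) :=
            measure_biUnion_finset_le _ _
        _ ≤ ∑ p ∈ P, ENNReal.ofReal (1 / N j) * volume (G ∩ Set.Ioi ((N j : ℝ) * (a / 4))) := by
            apply Finset.sum_le_sum
            intro p hp
            rw [hP, Finset.mem_filter, Finset.mem_Ioc] at hp
            have hpr : (0 : ℝ) < p := by exact_mod_cast hp.2.pos
            have hNp : (N j : ℝ) < p := by exact_mod_cast hp.1.1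
            rw [Real.volume_preimage_mul_left hpr.ne']
            apply mul_le_mul_left
            apply ENNReal.ofReal_le_ofReal
            rw [abs_of_pos (by positivity), inv_eq_one_div]
            exact one_div_le_one_div_of_le hNr hNp.le
        _ = ENNReal.ofReal (P.card * (1 / N j)) *
            volume (G ∩ Set.Ioi ((N j : ℝ) * (a / 4))) := by
            rw [Finset.sum_const, nsmul_eq_mul, ENNReal.ofReal_mul (by positivity),
              ENNReal.ofReal_natCast, mul_assoc]
        _ ≤ 1 * volume (G ∩ Set.Ioi ((N j : ℝ) * (a / 4))) := by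
            apply mul_le_mul_left
            rw [ENNReal.ofReal_le_one, mul_one_div, div_le_one hNr]
            exact hPcard
        _ = _ := one_mul _
    have htend : Tendsto (fun n : ℕ => volume (G ∩ Set.Ioi (n : ℝ))) atTop (𝓝 0) := by
      have h1 := tendsto_measure_iInter_atTop (μ := volume) (s := fun n : ℕ => G ∩ Set.Ioi (n : ℝ))
        (fun n => (hGm.inter measurableSet_Ioi).nullMeasurableSet) (by
          intro n m hnm y hy
          refine ⟨hy.1, ?_⟩
          have h2 : (n : ℝ) ≤ m := by exact_mod_cast hnm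
          exact lt_of_le_of_lt h2 hy.2) ⟨0, ne_top_of_le_ne_top hfin (measure_mono
            Set.inter_subset_left)⟩
      have h2 : (⋂ n : ℕ, G ∩ Set.Ioi (n : ℝ)) = ∅ := by
        rw [Set.eq_empty_iff_forall_notMem]
        intro y hy
        obtain ⟨n, hn⟩ := exists_nat_ge y
        have := (Set.mem_iInter.1 hy n).2
        exact absurd (lt_of_le_of_lt hn this) (lt_irrefl _)
      rw [h2, measure_empty] at h1
      exact h1
    have hev := htend.eventually (gt_mem_nhds (show (0 : ENNReal) < ENNReal.ofReal (a / 4) by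
      simpa using ha))
    obtain ⟨n, hn⟩ := hev.exists
    obtain ⟨j, hj⟩ := exists_nat_ge ((n : ℝ) * (4 / a))
    have h1 : (n : ℝ) ≤ (N j : ℝ) * (a / 4) := by
      have h2 : (j : ℝ) ≤ N j := by exact_mod_cast hNj j
      have h3 : (n : ℝ) * (4 / a) ≤ N j := hj.trans h2
      have h4 := mul_le_mul_of_nonneg_right h3 (by positivity : (0 : ℝ) ≤ a / 4)
      have h5 : (n : ℝ) * (4 / a) * (a / 4) = n := by field_simp
      rwa [h5] at h4
    have h2 : volume (G ∩ Set.Ioi ((N j : ℝ) * (a / 4))) ≤ volume (G ∩ Set.Ioi (n : ℝ)) := by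
      apply measure_mono
      intro y hy
      exact ⟨hy.1, lt_of_le_of_lt h1 hy.2⟩
    exact absurd (lt_of_le_of_lt ((hlow j).trans h2) hn) (lt_irrefl _)
  · -- the pointwise statement
    intro x hx hxF
    obtain ⟨d, hd, hball⟩ := dilateUnion_closed_at hEc ha hEa hxF
    obtain ⟨j0, hj0⟩ := exists_nat_ge (x + x / d)
    have hxd : 0 < x / d := by positivity
    have hlarge : ∀ j : ℕ, j0 ≤ j → ∀ p ∈ (Finset.Ioc (N j) (N' j)).filter fun p : ℕ =>
        p.Prime ∧ ‖chi (t j) (p * x) - 1‖ ≤ 2 * η j, (p : ℝ) * x ∉ dilateUnion E := by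
      intro j hj
      have hjr : x + x / d ≤ (j : ℝ) := hj0.trans (by exact_mod_cast hj)
      apply hgood j x hx
      · have := hKf2 j
        linarith
      · intro z hz
        apply hball
        refine lt_of_le_of_lt hz ?_
        simp only [hκ]
        rw [one_div, inv_mul_lt_iff₀ (by positivity)]
        have h1 : x / d < (j : ℝ) + 1 := by linarith
        rw [div_lt_iff₀ hd] at h1
        linarith
    have hpos : ∀ j : ℕ, 0 ≤ |δ (N' j)| * ((N' j : ℝ) / Real.log (N' j)) := by
      intro j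
      apply mul_nonneg (abs_nonneg _)
      apply div_nonneg (by positivity)
      apply Real.log_nonneg
      exact_mod_cast (hN1 j).trans (hNN' j)
    constructor
    · rw [← Set.not_finite] 
      intro hfin
      obtain ⟨B, hB⟩ := hfin.bddAbove
      set j := max j0 B with hj
      have hd := hdense j x hx
      have hc1 : (1 : ℝ) ≤ (((Finset.Ioc (N j) (N' j)).filter fun p : ℕ =>
          p.Prime ∧ ‖chi (t j) (p * x) - 1‖ ≤ 2 * η j).card : ℝ) := by
        have := hpos j
        linarith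
      have hc2 : 0 < ((Finset.Ioc (N j) (N' j)).filter fun p : ℕ =>
          p.Prime ∧ ‖chi (t j) (p * x) - 1‖ ≤ 2 * η j).card := by
        exact_mod_cast lt_of_lt_of_le one_pos hc1
      obtain ⟨p, hp⟩ := Finset.card_pos.1 hc2
      have hpF := hlarge j (le_max_left _ _) p hp
      rw [Finset.mem_filter, Finset.mem_Ioc] at hp
      have h1 : p ≤ B := hB ⟨hp.2.1, hpF⟩
      have h2 := hNj j
      have h3 : B ≤ j := le_max_right _ _
      omega
    · rw [frequently_atTop]
      intro B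
      set j := max j0 B with hj
      refine ⟨N' j, ?_, ?_⟩
      · have h2 := hNj j
        have h3 : B ≤ j := le_max_right _ _
        have h4 := hNN' j
        omega
      · have hd := hdense j x hx
        have hle : δ (N' j) * ((N' j : ℝ) / Real.log (N' j)) ≤
            |δ (N' j)| * ((N' j : ℝ) / Real.log (N' j)) := by
          apply mul_le_mul_of_nonneg_right (le_abs_self _)
          apply div_nonneg (by positivity)
          apply Real.log_nonneg
          exact_mod_cast (hN1 j).trans (hNN' j)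
        have hsub : (((Finset.Ioc (N j) (N' j)).filter fun p : ℕ =>
            p.Prime ∧ ‖chi (t j) (p * x) - 1‖ ≤ 2 * η j : Finset ℕ) : Set ℕ) ⊆
            {p : ℕ | p.Prime ∧ p ≤ N' j ∧ (p : ℝ) * x ∉ dilateUnion E} := by
          intro p hp
          have hp := Finset.mem_coe.1 hp
          have hpF := hlarge j (le_max_left _ _) p hp
          rw [Finset.mem_filter, Finset.mem_Ioc] at hp
          exact ⟨hp.2.1, hp.1.2, hpF⟩
        have hfin : {p : ℕ | p.Prime ∧ p ≤ N' j ∧ (p : ℝ) * x ∉ dilateUnion E}.Finite :=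
          (Set.finite_Iic (N' j)).subset fun p hp => hp.2.1
        have hcard := Set.ncard_le_ncard hsub hfin
        rw [Set.ncard_coe_finset] at hcard
        have hcard' : ((((Finset.Ioc (N j) (N' j)).filter fun p : ℕ =>
            p.Prime ∧ ‖chi (t j) (p * x) - 1‖ ≤ 2 * η j).card : ℕ) : ℝ) ≤
            (({p : ℕ | p.Prime ∧ p ≤ N' j ∧ (p : ℝ) * x ∉ dilateUnion E}.ncard : ℕ) : ℝ) := by
          exact_mod_cast hcard
        linarith

end Pool.Agent.H32.HS
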