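import Pool.Agent.H32.HS.Leb
import Pool.Agent.H32.HS.Dens

/-!
# Haight's property holds for almost all integers
-/

namespace Pool.Agent.H32.HS

open MeasureTheory Finset Filter Topology

/-- The weight `1 / p` on the primes. -/
noncomputable def wt (n : ℕ) : ℝ := Set.indicator {p : ℕ | p.Prime} (fun n : ℕ => (1 : ℝ) / n) n

lemma wt_nonneg (n : ℕ) : 0 ≤ wt n := by
  unfold wt
  apply Set.indicator_nonneg
  intro p _
  positivity

lemma tendsto_sum_wt : Tendsto (fun n => ∑ i ∈ Finset.range n, wt i) atTop atTop := by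
  have h := not_summable_one_div_on_primes
  exact (not_summable_iff_tendsto_nat_atTop_of_nonneg (fun n => wt_nonneg n)).1 h

/-- On `[u, v]` the sums `∑_{p x ∈ F(E)} 1 / p` diverge almost everywhere. -/
lemma ae_unbounded_on (E : Set ℝ) (hE0 : E ⊆ Set.Ioi 0) (hE : MeasurableSet E)
    (hpos : volume E ≠ 0) (u v : ℝ) (hu : 0 < u) (huv : u ≤ v) (C : ℕ) :
    volume {x : ℝ | x ∈ Set.Icc u v ∧ ∀ N : ℕ, ∑ p ∈ Finset.range N,
      Set.indicator {p : ℕ | (p : ℝ) * x ∈ dilateUnion E} wt p ≤ C} = 0 := by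
  set F := dilateUnion E with hF
  have hFm : MeasurableSet F := measurableSet_dilateUnion' hE
  set B : Set ℝ := {x : ℝ | x ∈ Set.Icc u v ∧ ∀ N : ℕ, ∑ p ∈ Finset.range N,
      Set.indicator {p : ℕ | (p : ℝ) * x ∈ F} wt p ≤ C} with hB
  have hmem : ∀ (p : ℕ) (x : ℝ), Set.indicator {p : ℕ | (p : ℝ) * x ∈ F} wt p =
      Set.indicator ((fun x : ℝ => (p : ℝ) * x) ⁻¹' F) (fun _ => wt p) x := by
    intro p x
    by_cases h : (p : ℝ) * x ∈ F
    · rw [Set.indicator_of_mem (show p ∈ {p : ℕ | (p : ℝ) * x ∈ F} from h),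
        Set.indicator_of_mem (show x ∈ (fun x : ℝ => (p : ℝ) * x) ⁻¹' F from h)]
    · rw [Set.indicator_of_notMem (show p ∉ {p : ℕ | (p : ℝ) * x ∈ F} from h),
        Set.indicator_of_notMem (show x ∉ (fun x : ℝ => (p : ℝ) * x) ⁻¹' F from h)]
  have hBm : MeasurableSet B := by
    have : B = Set.Icc u v ∩ ⋂ N : ℕ, {x : ℝ | ∑ p ∈ Finset.range N,
        Set.indicator ((fun x : ℝ => (p : ℝ) * x) ⁻¹' F) (fun _ => wt p) x ≤ C} := by
      ext x
      simp only [hB, Set.mem_inter_iff, Set.mem_iInter, Set.mem_ofPred_eq, hmem]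
    rw [this]
    refine measurableSet_Icc.inter (MeasurableSet.iInter fun N => ?_)
    refine measurableSet_le ?_ measurable_const
    refine Finset.measurable_fun_sum _ fun p _ => ?_
    exact measurable_const.indicator (hFm.preimage (by fun_prop))
  by_contra hne
  have hfin : volume B ≠ ⊤ := by
    refine ne_top_of_le_ne_top ?_ (measure_mono (show B ⊆ Set.Icc u v from fun x hx => hx.1))
    rw [Real.volume_Icc]
    exact ENNReal.ofReal_ne_top
  set β : ℝ := (volume B).toReal with hβ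
  have hβ0 : 0 < β := ENNReal.toReal_pos hne hfin
  set P : ℕ → ℝ := fun N => ∑ i ∈ Finset.range N, wt i with hP
  have hP0 : ∀ N, 0 ≤ P N := fun N => Finset.sum_nonneg fun i _ => wt_nonneg i
  have hgapfin : ∀ n, gap E u v n ≠ ⊤ := by
    intro n
    refine ne_top_of_le_ne_top ?_ (measure_mono (show {x : ℝ | x ∈ Set.Icc u v ∧
      (n : ℝ) * x ∉ dilateUnion E} ⊆ Set.Icc u v from fun x hx => hx.1))
    rw [Real.volume_Icc]
    exact ENNReal.ofReal_ne_top
  -- the main inequality
  have hmain : ∀ N, P N * β ≤ C * β + ∑ p ∈ Finset.range N, wt p * (gap E u v p).toReal := by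
    intro N
    have h1 : ∀ x ∈ B, ENNReal.ofReal (P N) ≤ ENNReal.ofReal C + ∑ p ∈ Finset.range N,
        Set.indicator ((fun x : ℝ => (p : ℝ) * x) ⁻¹' Fᶜ) (fun _ => ENNReal.ofReal (wt p)) x := by
      intro x hx
      have h2 := hx.2 N
      have h3 : P N = ∑ p ∈ Finset.range N, Set.indicator {p : ℕ | (p : ℝ) * x ∈ F} wt p +
          ∑ p ∈ Finset.range N, Set.indicator ((fun x : ℝ => (p : ℝ) * x) ⁻¹' Fᶜ)
            (fun _ => wt p) x := by
        rw [hP, ← Finset.sum_add_distrib]
        refine Finset.sum_congr rfl fun p _ => ?_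
        rw [hmem]
        by_cases h : (p : ℝ) * x ∈ F
        · rw [Set.indicator_of_mem (show x ∈ (fun x : ℝ => (p : ℝ) * x) ⁻¹' F from h),
            Set.indicator_of_notMem (show x ∉ (fun x : ℝ => (p : ℝ) * x) ⁻¹' Fᶜ from
              fun h' => h' h), add_zero]
        · rw [Set.indicator_of_notMem (show x ∉ (fun x : ℝ => (p : ℝ) * x) ⁻¹' F from h),
            Set.indicator_of_mem (show x ∈ (fun x : ℝ => (p : ℝ) * x) ⁻¹' Fᶜ from h), zero_add]
      have h4 : ∀ p : ℕ, Set.indicator ((fun x : ℝ => (p : ℝ) * x) ⁻¹' Fᶜ)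
          (fun _ => ENNReal.ofReal (wt p)) x = ENNReal.ofReal (Set.indicator
            ((fun x : ℝ => (p : ℝ) * x) ⁻¹' Fᶜ) (fun _ => wt p) x) := by
        intro p
        by_cases h : x ∈ (fun x : ℝ => (p : ℝ) * x) ⁻¹' Fᶜ
        · rw [Set.indicator_of_mem h, Set.indicator_of_mem h]
        · rw [Set.indicator_of_notMem h, Set.indicator_of_notMem h, ENNReal.ofReal_zero]
      simp_rw [h4]
      rw [← ENNReal.ofReal_sum_of_nonneg (fun p _ => Set.indicator_nonneg (fun _ _ => wt_nonneg p) x),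
        ← ENNReal.ofReal_add (by positivity) (Finset.sum_nonneg fun p _ =>
          Set.indicator_nonneg (fun _ _ => wt_nonneg p) x)]
      apply ENNReal.ofReal_le_ofReal
      rw [h3]
      linarith
    have h2 : ENNReal.ofReal (P N) * volume B ≤ ENNReal.ofReal C * volume B +
        ∑ p ∈ Finset.range N, ENNReal.ofReal (wt p) * gap E u v p := by
      calc ENNReal.ofReal (P N) * volume B = ∫⁻ _ in B, ENNReal.ofReal (P N) := by
            rw [setLIntegral_const]
        _ ≤ ∫⁻ x in B, (ENNReal.ofReal C + ∑ p ∈ Finset.range N,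
            Set.indicator ((fun x : ℝ => (p : ℝ) * x) ⁻¹' Fᶜ)
              (fun _ => ENNReal.ofReal (wt p)) x) := setLIntegral_mono' hBm h1
        _ = ENNReal.ofReal C * volume B + ∑ p ∈ Finset.range N, ∫⁻ x in B,
            Set.indicator ((fun x : ℝ => (p : ℝ) * x) ⁻¹' Fᶜ)
              (fun _ => ENNReal.ofReal (wt p)) x := by
            rw [lintegral_add_left measurable_const, setLIntegral_const, lintegral_finsetSum]
            intro p _
            exact measurable_const.indicator (hFm.compl.preimage (by fun_prop))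
        _ ≤ ENNReal.ofReal C * volume B +
            ∑ p ∈ Finset.range N, ENNReal.ofReal (wt p) * gap E u v p := by
            refine add_le_add le_rfl (Finset.sum_le_sum fun p _ => ?_)
            rw [lintegral_indicator (hFm.compl.preimage (by fun_prop)), setLIntegral_const]
            apply mul_le_mul_right
            rw [Measure.restrict_apply (hFm.compl.preimage (by fun_prop))]
            apply measure_mono
            intro x hx
            exact ⟨hx.2.1, hx.1⟩
    have h3 := ENNReal.toReal_mono (by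
      refine ENNReal.add_ne_top.2 ⟨ENNReal.mul_ne_top ENNReal.ofReal_ne_top hfin, ?_⟩
      exact ENNReal.sum_ne_top.2 fun p _ => ENNReal.mul_ne_top ENNReal.ofReal_ne_top (hgapfin p)) h2
    rw [ENNReal.toReal_mul, ENNReal.toReal_ofReal (hP0 N), ENNReal.toReal_add
      (ENNReal.mul_ne_top ENNReal.ofReal_ne_top hfin)
      (ENNReal.sum_ne_top.2 fun p _ => ENNReal.mul_ne_top ENNReal.ofReal_ne_top (hgapfin p)),
      ENNReal.toReal_mul, ENNReal.toReal_ofReal (by positivity), ENNReal.toReal_sum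
      (fun p _ => ENNReal.mul_ne_top ENNReal.ofReal_ne_top (hgapfin p))] at h3
    refine h3.trans (le_of_eq ?_)
    congr 1
    refine Finset.sum_congr rfl fun p _ => ?_
    rw [ENNReal.toReal_mul, ENNReal.toReal_ofReal (wt_nonneg p)]
  -- asymptotics
  have hlo : (fun n => wt n * (gap E u v n).toReal) =o[atTop] wt := by
    have h1 : (fun n => (gap E u v n).toReal) =o[atTop] (fun _ => (1 : ℝ)) :=
      (Asymptotics.isLittleO_one_iff ℝ).2 (tendsto_gap E hE0 hE hpos u v hu huv)
    have h2 := (Asymptotics.isBigO_refl wt atTop).mul_isLittleO h1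
    simpa using h2
  have hsum := hlo.sum_range (fun n => wt_nonneg n) tendsto_sum_wt
  have hev := (Asymptotics.isLittleO_iff.1 hsum) (show 0 < β / 2 by positivity)
  have hev2 := tendsto_sum_wt.eventually (eventually_gt_atTop (2 * (C : ℝ)))
  obtain ⟨N, hN1, hN2⟩ := (hev.and hev2).exists
  rw [Real.norm_of_nonneg (Finset.sum_nonneg fun p _ => mul_nonneg (wt_nonneg p)
    ENNReal.toReal_nonneg), Real.norm_of_nonneg (Finset.sum_nonneg fun p _ => wt_nonneg p)] at hN1
  have h1 := hmain N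
  have h2 : P N * β ≤ C * β + β / 2 * P N := h1.trans (by
    simp only [hP]
    linarith)
  have h3 : 2 * (C : ℝ) < P N := hN2
  nlinarith

/-- **Haight's property holds for almost all integers.** -/
theorem pos (E : Set ℝ) (hE0 : E ⊆ Set.Ioi 0) (hE : NullMeasurableSet E volume)
    (hpos : volume E ≠ 0) : ∀ᵐ x : ℝ, 0 < x →
      Tendsto (fun N : ℕ => ({n : ℕ | 1 ≤ n ∧ n ≤ N ∧ (n : ℝ) * x ∉ dilateUnion E}.ncard : ℝ) / N)
        atTop (𝓝 0) := by
  obtain ⟨E', hE'E, hE'm, hE'ae⟩ := hE.exists_measurable_subset_ae_eq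
  have hE'pos : volume E' ≠ 0 := by rwa [measure_congr hE'ae]
  have hE'0 : E' ⊆ Set.Ioi 0 := hE'E.trans hE0
  have hae : ∀ᵐ x : ℝ, ∀ k C : ℕ, ¬ (x ∈ Set.Icc (1 / ((k : ℝ) + 1)) ((k : ℝ) + 1) ∧
      ∀ N : ℕ, ∑ p ∈ Finset.range N,
        Set.indicator {p : ℕ | (p : ℝ) * x ∈ dilateUnion E'} wt p ≤ C) := by
    rw [ae_all_iff]
    intro k
    rw [ae_all_iff]
    intro C
    rw [ae_iff]
    have := ae_unbounded_on E' hE'0 hE'm hE'pos (1 / ((k : ℝ) + 1)) ((k : ℝ) + 1) (by positivity)
      (by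
        rw [div_le_iff₀ (by positivity)]
        have : (0 : ℝ) ≤ k := by positivity
        nlinarith) C
    simp only [not_not]
    exact this
  filter_upwards [hae] with x hx hx0
  obtain ⟨k, hk⟩ := exists_nat_ge (max x (1 / x))
  have hkx : x ≤ k := (le_max_left _ _).trans hk
  have hkx' : 1 / x ≤ k := (le_max_right _ _).trans hk
  have hxI : x ∈ Set.Icc (1 / ((k : ℝ) + 1)) ((k : ℝ) + 1) := by
    constructor
    · rw [div_le_iff₀ hx0] at hkx'
      rw [div_le_iff₀ (by positivity)]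
      nlinarith
    · linarith
  refine density_zero {p : ℕ | p.Prime ∧ (p : ℝ) * x ∈ dilateUnion E'}
    {n : ℕ | (n : ℝ) * x ∉ dilateUnion E} (fun p hp => hp.1) ?_ ?_
  · intro C
    obtain ⟨C', hC'⟩ := exists_nat_ge C
    have h1 := hx k C'
    push Not at h1
    obtain ⟨N, hN⟩ := h1 hxI
    classical
    refine ⟨(Finset.range N).filter fun p => p.Prime ∧ (p : ℝ) * x ∈ dilateUnion E',
      fun p hp => (Finset.mem_filter.1 hp).2, ?_⟩
    rw [Finset.sum_filter]
    refine (hC'.trans hN.le).trans (le_of_eq ?_)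
    refine Finset.sum_congr rfl fun p _ => ?_
    by_cases h2 : (p : ℝ) * x ∈ dilateUnion E'
    · rw [Set.indicator_of_mem (show p ∈ {p : ℕ | (p : ℝ) * x ∈ dilateUnion E'} from h2)]
      unfold wt
      by_cases h3 : p.Prime
      · rw [Set.indicator_of_mem (show p ∈ {p : ℕ | p.Prime} from h3), if_pos ⟨h3, h2⟩]
      · rw [Set.indicator_of_notMem (show p ∉ {p : ℕ | p.Prime} from h3),
          if_neg (fun h => h3 h.1)]
    · rw [Set.indicator_of_notMem (show p ∉ {p : ℕ | (p : ℝ) * x ∈ dilateUnion E'} from h2),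
        if_neg (fun h => h2 h.2)]
  · intro n hn hn1 p hp hpn
    obtain ⟨m, rfl⟩ := hpn
    apply hn
    have hm : 1 ≤ m := by
      rcases Nat.eq_zero_or_pos m with h0 | h0
      · rw [h0, mul_zero] at hn1; omega
      · exact h0
    have h1 := mul_mem_dilateUnion hp.2 hm
    have h2 : ((p * m : ℕ) : ℝ) * x = (m : ℝ) * ((p : ℝ) * x) := by push_cast; ring
    rw [h2]
    exact dilateUnion_mono hE'E h1

end Pool.Agent.H32.HS
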