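import Pool.Agent.H32.KroneckerPrimes

/-!
# Short windows with many primes
-/

namespace Pool.Agent.H32.HS

open Complex MeasureTheory Finset Filter Topology
open Pool.Agent.H32

/-- Chebyshev: the number of primes in `(4 ^ k, 4 ^ (k + 1)]`. -/
lemma count_primes (k : ℕ) : (2 : ℝ) ^ k * 2 ^ k - ((k : ℝ) + 2) - 2 * (2 * 2 ^ k) * (k + 1) ≤
    (((Finset.Ioc (4 ^ k) (4 * 4 ^ k)).filter Nat.Prime).card : ℝ) * (k + 1) := by
  set N : ℕ := 4 ^ k with hN
  have hN1 : 1 ≤ N := Nat.one_le_pow _ _ (by norm_num)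
  have hup := Chebyshev.theta_le_log4_mul_x (x := (N : ℝ)) (by positivity)
  have hlow := Chebyshev.theta_ge (4 * N)
  have hdiff : Chebyshev.theta ((4 * N : ℕ) : ℝ) - Chebyshev.theta (N : ℝ) ≤
      (((Finset.Ioc N (4 * N)).filter Nat.Prime).card : ℝ) * Real.log ((4 * N : ℕ) : ℝ) := by
    have e1 : Chebyshev.theta ((4 * N : ℕ) : ℝ) = ∑ p ∈ (Finset.Ioc 0 (4 * N)).filter Nat.Prime,
        Real.log (p : ℝ) := by
      unfold Chebyshev.theta
      rw [Nat.floor_natCast]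
    have e2 : Chebyshev.theta ((N : ℕ) : ℝ) = ∑ p ∈ (Finset.Ioc 0 N).filter Nat.Prime,
        Real.log (p : ℝ) := by
      unfold Chebyshev.theta
      rw [Nat.floor_natCast]
    have e3 : (Finset.Ioc 0 (4 * N)).filter Nat.Prime =
        (Finset.Ioc 0 N).filter Nat.Prime ∪ (Finset.Ioc N (4 * N)).filter Nat.Prime := by
      rw [← Finset.filter_union, Finset.Ioc_union_Ioc_eq_Ioc (Nat.zero_le _) (by omega)]
    have e4 : Disjoint ((Finset.Ioc 0 N).filter Nat.Prime)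
        ((Finset.Ioc N (4 * N)).filter Nat.Prime) := by
      apply Finset.disjoint_filter_filter
      rw [Finset.disjoint_left]
      intro a ha hb
      rw [Finset.mem_Ioc] at ha hb
      omega
    rw [e1, e2, e3, Finset.sum_union e4, add_sub_cancel_left]
    rw [← nsmul_eq_mul]
    apply Finset.sum_le_card_nsmul
    intro p hp
    rw [Finset.mem_filter, Finset.mem_Ioc] at hp
    apply Real.log_le_log
    · exact_mod_cast hp.2.pos
    · exact_mod_cast hp.1.2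
  have hl2 : 0 < Real.log 2 := Real.log_pos (by norm_num)
  have hlog4 : Real.log 4 = 2 * Real.log 2 := by
    rw [show (4 : ℝ) = 2 ^ 2 by norm_num, Real.log_pow]; norm_num
  have hNr : (N : ℝ) = 4 ^ k := by rw [hN]; push_cast; ring
  have h4N : ((4 * N : ℕ) : ℝ) = 4 ^ (k + 1) := by push_cast; rw [hNr]; ring
  have hlog4N : Real.log ((4 * N : ℕ) : ℝ) = (k + 1) * (2 * Real.log 2) := by
    rw [h4N, Real.log_pow, hlog4]; push_cast; ring
  have hlog4N1 : Real.log (((4 * N : ℕ) : ℝ) + 1) ≤ (k + 2) * (2 * Real.log 2) := by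
    have : Real.log (((4 * N : ℕ) : ℝ) + 1) ≤ Real.log ((4 : ℝ) ^ (k + 2)) := by
      apply Real.log_le_log (by positivity)
      rw [h4N]
      have : (1 : ℝ) ≤ 4 ^ (k + 1) := one_le_pow₀ (by norm_num)
      rw [pow_succ (4 : ℝ) (k + 1)]
      linarith
    rw [Real.log_pow, hlog4] at this
    push_cast at this ⊢
    linarith
  have hsqrt : √((4 * N : ℕ) : ℝ) = 2 * 2 ^ k := by
    rw [h4N]
    have : (4 : ℝ) ^ (k + 1) = (2 * 2 ^ k) ^ 2 := by
      rw [mul_pow, ← pow_mul, mul_comm k 2, pow_mul]; ring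
    rw [this, Real.sqrt_sq (by positivity)]
  rw [hsqrt, hlog4N] at hlow
  rw [hlog4N] at hdiff
  rw [hlog4] at hup
  have hpow : (4 : ℝ) ^ k = 2 ^ k * 2 ^ k := by
    rw [← mul_pow]; norm_num
  set c : ℝ := (((Finset.Ioc N (4 * N)).filter Nat.Prime).card : ℝ) with hc
  have hL : ((4 * N : ℕ) : ℝ) * Real.log 2 = 4 * (2 ^ k * 2 ^ k) * Real.log 2 := by
    push_cast; rw [hNr, hpow]
  rw [hL] at hlow
  rw [hNr, hpow] at hup
  rw [hNr] at hdiff
  have hup' : Chebyshev.theta ((4 : ℝ) ^ k) ≤ 2 * Real.log 2 * (2 ^ k * 2 ^ k) := by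
    rw [hpow]; exact hup
  -- put together, divide by 2 log 2
  have h1 : (2 * Real.log 2) * (2 ^ k * 2 ^ k - (k + 2) - 2 * (2 * 2 ^ k) * (k + 1)) ≤
      (2 * Real.log 2) * (c * (k + 1)) := by
    nlinarith
  exact le_of_mul_le_mul_left h1 (by positivity)

/-- A quarter of the main term for large `k`. -/
lemma count_primes_large : ∀ᶠ k : ℕ in atTop, (4 : ℝ) ^ k ≤
    4 * k * (((Finset.Ioc (4 ^ k) (4 * 4 ^ k)).filter Nat.Prime).card : ℝ) := by
  have hlim := tendsto_pow_const_mul_const_pow_of_abs_lt_one 1 (r := (1/2 : ℝ))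
    (by rw [abs_of_nonneg (by norm_num)]; norm_num)
  have hlim2 : Tendsto (fun k : ℕ => (30 : ℝ) * ((k : ℝ) ^ 1 * (1/2 : ℝ) ^ k))
      atTop (𝓝 0) := by
    have := hlim.const_mul (30 : ℝ)
    simpa using this
  filter_upwards [hlim2.eventually (gt_mem_nhds (zero_lt_one)), eventually_ge_atTop 1] with k hk hk1
  have h1 : (1 : ℝ) ≤ k := by exact_mod_cast hk1
  have h2 : (0 : ℝ) < 2 ^ k := by positivity
  have h3 : (1/2 : ℝ) ^ k * 2 ^ k = 1 := by
    rw [← mul_pow]; norm_num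
  have h5 : (30 : ℝ) * k ≤ 2 ^ k := by
    have h6 : (30 : ℝ) * ((k : ℝ) ^ 1 * (1/2 : ℝ) ^ k) * 2 ^ k ≤ 1 * 2 ^ k :=
      mul_le_mul_of_nonneg_right hk.le h2.le
    have h7 : (30 : ℝ) * ((k : ℝ) ^ 1 * (1/2 : ℝ) ^ k) * 2 ^ k =
        30 * k * ((1/2 : ℝ) ^ k * 2 ^ k) := by ring
    rw [h7, h3, mul_one, one_mul] at h6
    exact h6
  have h8 := count_primes k
  have h9 : (1 : ℝ) ≤ 2 ^ k := one_le_pow₀ (by norm_num)
  have h10 : (4 : ℝ) ^ k = 2 ^ k * 2 ^ k := by rw [← mul_pow]; norm_num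
  set c : ℝ := (((Finset.Ioc (4 ^ k) (4 * 4 ^ k)).filter Nat.Prime).card : ℝ) with hc
  have hc0 : 0 ≤ c := by rw [hc]; positivity
  rw [h10]
  have h11 : (30 : ℝ) * k * 2 ^ k ≤ 2 ^ k * 2 ^ k := mul_le_mul_of_nonneg_right h5 h2.le
  have h12 : c * (k + 1) ≤ c * (2 * k) := mul_le_mul_of_nonneg_left (by linarith) hc0
  have h13 : (k : ℝ) ≤ k * 2 ^ k := by nlinarith
  have h14 : (2 : ℝ) ^ k ≤ k * 2 ^ k := by nlinarith
  nlinarith

/-- A short window `(N, N']` with `N' ≤ (1 + κ) N` containing many primes. -/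
lemma exists_window (κ : ℝ) (hκ : 0 < κ) (m : ℕ) (δ : ℕ → ℝ) (hδ : Tendsto δ atTop (𝓝 0))
    (N0 : ℕ) : ∃ N N' : ℕ, N0 ≤ N ∧ 1 ≤ N ∧ N ≤ N' ∧ (N' : ℝ) ≤ (1 + κ) * N ∧
      m * (|δ N'| * (N' / Real.log N') + 2) ≤ (((Finset.Ioc N N').filter Nat.Prime).card : ℝ) := by
  set ρ : ℝ := 1 + κ / 2 with hρ
  have hρ1 : 1 < ρ := by rw [hρ]; linarith
  obtain ⟨L, hL⟩ := pow_unbounded_of_one_lt (4 : ℝ) hρ1
  have hL1 : 1 ≤ L := by
    rcases Nat.eq_zero_or_pos L with h | h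
    · rw [h, pow_zero] at hL; linarith
    · exact h
  have hLr : (1 : ℝ) ≤ L := by exact_mod_cast hL1
  have hρL : 0 < ρ ^ L := by positivity
  -- the threshold for δ
  obtain ⟨δ0, hδ0, hδ0'⟩ : ∃ δ0 : ℝ, 0 < δ0 ∧ m * (δ0 * ρ ^ L) ≤ 1 / (8 * L) := by
    refine ⟨1 / (8 * L * (m + 1) * ρ ^ L), by positivity, ?_⟩
    have h1 : (m : ℝ) * (1 / (8 * L * (m + 1) * ρ ^ L) * ρ ^ L) = (m / (m + 1)) * (1 / (8 * L)) := by
      field_simp
    rw [h1]
    have h2 : (m : ℝ) / (m + 1) ≤ 1 := by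
      rw [div_le_one (by positivity)]; linarith
    calc (m : ℝ) / (m + 1) * (1 / (8 * L)) ≤ 1 * (1 / (8 * L)) :=
          mul_le_mul_of_nonneg_right h2 (by positivity)
      _ = _ := one_mul _
  have hδev : ∀ᶠ n : ℕ in atTop, |δ n| ≤ δ0 := by
    have := hδ.abs
    rw [abs_zero] at this
    filter_upwards [this.eventually (gt_mem_nhds hδ0)] with n hn
    exact hn.le
  obtain ⟨n1, hn1⟩ := eventually_atTop.1 hδev
  obtain ⟨n2, hn2⟩ := exists_nat_ge (2 / κ + 2)
  have hbig : ∀ᶠ k : ℕ in atTop, (16 * L * m : ℝ) * k ≤ 4 ^ k := by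
    have hlim := tendsto_pow_const_mul_const_pow_of_abs_lt_one 1 (r := (1/4 : ℝ))
      (by rw [abs_of_nonneg (by norm_num)]; norm_num)
    have hlim2 : Tendsto (fun k : ℕ => (16 * L * m : ℝ) * ((k : ℝ) ^ 1 * (1/4 : ℝ) ^ k))
        atTop (𝓝 0) := by
      have := hlim.const_mul (16 * L * m : ℝ)
      simpa using this
    filter_upwards [hlim2.eventually (gt_mem_nhds (zero_lt_one))] with k hk
    have h2 : (0 : ℝ) < 4 ^ k := by positivity
    have h3 : (1/4 : ℝ) ^ k * 4 ^ k = 1 := by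
      rw [← mul_pow]; norm_num
    have h6 : (16 * L * m : ℝ) * ((k : ℝ) ^ 1 * (1/4 : ℝ) ^ k) * 4 ^ k ≤ 1 * 4 ^ k :=
      mul_le_mul_of_nonneg_right hk.le h2.le
    have h7 : (16 * L * m : ℝ) * ((k : ℝ) ^ 1 * (1/4 : ℝ) ^ k) * 4 ^ k =
        (16 * L * m : ℝ) * k * ((1/4 : ℝ) ^ k * 4 ^ k) := by ring
    rw [h7, h3, mul_one, one_mul] at h6
    exact h6
  obtain ⟨k, hk4, hkbig, hk1, hkN0, hkn1, hkn2⟩ := (count_primes_large.and (hbig.and
    ((eventually_ge_atTop 1).and ((eventually_ge_atTop N0).and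
      ((eventually_ge_atTop n1).and (eventually_ge_atTop n2)))))).exists
  have hkr : (1 : ℝ) ≤ k := by exact_mod_cast hk1
  have hk4k : k ≤ 4 ^ k := (Nat.lt_pow_self (by norm_num)).le
  set N : ℕ := 4 ^ k with hN
  have hNr : (N : ℝ) = 4 ^ k := by rw [hN]; push_cast; ring
  have hNpos : (0 : ℝ) < N := by rw [hNr]; positivity
  set M : ℕ → ℕ := fun i => ⌊(N : ℝ) * ρ ^ i⌋₊ with hM
  have hM0 : M 0 = N := by simp only [hM]; rw [pow_zero, mul_one, Nat.floor_natCast]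
  have hMmono : Monotone M := by
    intro i j hij
    apply Nat.floor_le_floor
    exact mul_le_mul_of_nonneg_left (pow_le_pow_right₀ hρ1.le hij) hNpos.le
  have hML : 4 * N ≤ M L := by
    apply Nat.le_floor
    push_cast
    have := mul_le_mul_of_nonneg_left hL.le hNpos.le
    linarith
  have hMN : ∀ i, N ≤ M i := fun i => by rw [← hM0]; exact hMmono (Nat.zero_le i)
  -- the windows cover
  have hcover : ((Finset.Ioc N (4 * N)).filter Nat.Prime).card ≤
      ∑ i ∈ Finset.range L, ((Finset.Ioc (M i) (M (i + 1))).filter Nat.Prime).card := by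
    refine le_trans (Finset.card_le_card (t := (Finset.range L).biUnion fun i =>
      (Finset.Ioc (M i) (M (i + 1))).filter Nat.Prime) ?_) Finset.card_biUnion_le
    intro p hp
    rw [Finset.mem_filter, Finset.mem_Ioc] at hp
    rw [Finset.mem_biUnion]
    have hex : ∃ i, p ≤ M i := ⟨L, hp.1.2.trans hML⟩
    classical
    set i := Nat.find hex with hi
    have hi1 : p ≤ M i := Nat.find_spec hex
    have hi0 : i ≠ 0 := by
      intro h0
      rw [h0, hM0] at hi1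
      omega
    have hiL : i ≤ L := Nat.find_min' hex (hp.1.2.trans hML)
    have hi2 : ¬ p ≤ M (i - 1) := Nat.find_min hex (by omega)
    refine ⟨i - 1, Finset.mem_range.2 (by omega), ?_⟩
    rw [Finset.mem_filter, Finset.mem_Ioc, Nat.sub_add_cancel (by omega)]
    exact ⟨⟨by omega, hi1⟩, hp.2⟩
  -- pick a window
  obtain ⟨i, hiL, hi⟩ : ∃ i ∈ Finset.range L, ((((Finset.Ioc N (4 * N)).filter Nat.Prime).card : ℝ)) / L ≤
      (((Finset.Ioc (M i) (M (i + 1))).filter Nat.Prime).card : ℝ) := by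
    by_contra hcon
    push Not at hcon
    have h1 : ∑ i ∈ Finset.range L, (((Finset.Ioc (M i) (M (i + 1))).filter Nat.Prime).card : ℝ) <
        ∑ i ∈ Finset.range L, ((((Finset.Ioc N (4 * N)).filter Nat.Prime).card : ℝ)) / L :=
      Finset.sum_lt_sum_of_nonempty ⟨0, Finset.mem_range.2 hL1⟩ hcon
    rw [Finset.sum_const, Finset.card_range, nsmul_eq_mul] at h1
    have h2 : (L : ℝ) * (((((Finset.Ioc N (4 * N)).filter Nat.Prime).card : ℝ)) / L) =
        (((Finset.Ioc N (4 * N)).filter Nat.Prime).card : ℝ) := by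
      field_simp
    rw [h2] at h1
    have h3 : ((((Finset.Ioc N (4 * N)).filter Nat.Prime).card : ℕ) : ℝ) ≤
        ∑ i ∈ Finset.range L, (((Finset.Ioc (M i) (M (i + 1))).filter Nat.Prime).card : ℝ) := by
      exact_mod_cast hcover
    linarith
  rw [Finset.mem_range] at hiL
  refine ⟨M i, M (i + 1), ?_, ?_, hMmono (Nat.le_succ i), ?_, ?_⟩
  · exact (hkN0.trans hk4k).trans (hMN i)
  · have := hMN i
    omega
  · have h1 : (M (i + 1) : ℝ) ≤ N * ρ ^ (i + 1) := Nat.floor_le (by positivity)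
    have h2 : (N : ℝ) * ρ ^ i < M i + 1 := Nat.lt_floor_add_one _
    have h3 : (n2 : ℝ) ≤ M i := by exact_mod_cast (hkn2.trans hk4k).trans (hMN i)
    have h4 : 2 / κ + 2 ≤ (M i : ℝ) := hn2.trans h3
    have h5 : 2 + 2 * κ ≤ κ * (M i : ℝ) := by
      have := mul_le_mul_of_nonneg_left h4 hκ.le
      have h6 : κ * (2 / κ + 2) = 2 + 2 * κ := by field_simp
      linarith
    calc (M (i + 1) : ℝ) ≤ (N * ρ ^ i) * ρ := by rw [pow_succ] at h1; linarith
      _ ≤ (M i + 1) * ρ := mul_le_mul_of_nonneg_right h2.le (by linarith)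
      _ ≤ (1 + κ) * M i := by rw [hρ]; nlinarith
  · have hN'N : (N : ℝ) ≤ M (i + 1) := by exact_mod_cast hMN (i + 1)
    have hlogN : Real.log N = k * (2 * Real.log 2) := by
      rw [hNr, Real.log_pow, show (4 : ℝ) = 2 ^ 2 by norm_num, Real.log_pow]
      push_cast
      ring
    have hl2 : 0.5 < Real.log 2 := by have := Real.log_two_gt_d9; linarith
    have hlogN1 : (k : ℝ) ≤ Real.log N := by rw [hlogN]; nlinarith
    have hlogN' : (k : ℝ) ≤ Real.log (M (i + 1)) := hlogN1.trans (Real.log_le_log hNpos hN'N)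
    have hN'up : (M (i + 1) : ℝ) ≤ N * ρ ^ L := by
      have h1 : (M (i + 1) : ℝ) ≤ N * ρ ^ (i + 1) := Nat.floor_le (by positivity)
      refine h1.trans (mul_le_mul_of_nonneg_left (pow_le_pow_right₀ hρ1.le (by omega)) hNpos.le)
    have hratio : (M (i + 1) : ℝ) / Real.log (M (i + 1)) ≤ N * ρ ^ L / k :=
      div_le_div₀ (by positivity) hN'up (by linarith) hlogN'
    have hδN' : |δ (M (i + 1))| ≤ δ0 := by
      apply hn1
      exact (hkn1.trans hk4k).trans (hMN (i + 1))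
    have h1 : |δ (M (i + 1))| * ((M (i + 1) : ℝ) / Real.log (M (i + 1))) ≤
        δ0 * (N * ρ ^ L / k) := by
      apply mul_le_mul hδN' hratio _ hδ0.le
      apply div_nonneg (by positivity) (by linarith)
    refine le_trans ?_ hi
    rw [le_div_iff₀ (by linarith)]
    have h2 : (m : ℝ) * (|δ (M (i + 1))| * ((M (i + 1) : ℝ) / Real.log (M (i + 1))) + 2) ≤
        m * (δ0 * (N * ρ ^ L / k) + 2) := by
      apply mul_le_mul_of_nonneg_left _ (by positivity)
      linarith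
    have h3 : (m : ℝ) * (δ0 * (N * ρ ^ L / k)) = (m * (δ0 * ρ ^ L)) * (N / k) := by ring
    have h4 : (m * (δ0 * ρ ^ L)) * (N / k) ≤ (1 / (8 * L)) * ((N : ℝ) / k) :=
      mul_le_mul_of_nonneg_right hδ0' (by positivity)
    have h5 : (1 / (8 * L)) * ((N : ℝ) / k) * L = (N : ℝ) / (8 * k) := by
      field_simp
    have h6 : (2 * m : ℝ) * L ≤ (N : ℝ) / (8 * k) := by
      rw [le_div_iff₀ (by linarith), hNr]
      linarith
    have h7 : (N : ℝ) / (8 * k) + (N : ℝ) / (8 * k) ≤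
        (((Finset.Ioc N (4 * N)).filter Nat.Prime).card : ℝ) := by
      have h8 : (N : ℝ) / (8 * k) + (N : ℝ) / (8 * k) = (N : ℝ) / (4 * k) := by
        field_simp
        ring
      rw [h8, div_le_iff₀ (by linarith), hNr, mul_comm]
      exact hk4
    calc (m : ℝ) * (|δ (M (i + 1))| * ((M (i + 1) : ℝ) / Real.log (M (i + 1))) + 2) * L
        ≤ m * (δ0 * (N * ρ ^ L / k) + 2) * L := mul_le_mul_of_nonneg_right h2 (by linarith)
      _ = (m * (δ0 * ρ ^ L)) * (N / k) * L + 2 * m * L := by rw [mul_add, h3]; ring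
      _ ≤ (1 / (8 * L)) * ((N : ℝ) / k) * L + 2 * m * L := by
          have := mul_le_mul_of_nonneg_right h4 (by linarith : (0 : ℝ) ≤ L)
          linarith
      _ ≤ _ := by rw [h5]; linarith

end Pool.Agent.H32.HS
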